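import Pool.Agent.U325.FO.Fam
import Pool.Agent.N724.TW.Asm
import Pool.Agent.N724.TW.T_VAL
import Pool.Agent.N724.TW.T_INV
import Pool.Agent.Y395.SP.Asm

set_option autoImplicit false

/-!
# Few orders for splay trees: hits are changes, monotone relabellings, working sets
-/

namespace Pool.Agent.U325.FO

open Finset Pool.Agent.H581R2.Splay Pool.Agent.TH49.Spl Pool.Agent.Y395.SP Pool.Agent.N724.TW

variable {n : ℕ}

/-! ### hits are changes -/

/-- the state of the node `(l, m, r)` for the list `L` (the most recent key first) -/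
def stL (l m r : ℕ) (f : Fin n → ℕ) : List (Fin n) → Bool
  | [] => false
  | x :: L => if l ≤ f x ∧ f x < m then true
      else if m ≤ f x ∧ f x < r then false else stL l m r f L

theorem stL_erase {l m r : ℕ} {f : Fin n → ℕ} {x : Fin n} (h1 : ¬ (l ≤ f x ∧ f x < m))
    (h2 : ¬ (m ≤ f x ∧ f x < r)) : ∀ L : List (Fin n), stL l m r f (L.erase x) = stL l m r f L := by
  intro L
  induction L with
  | nil => rfl
  | cons a L ih =>
    by_cases hax : a = x
    · subst hax
      rw [List.erase_cons_head, stL, if_neg h1, if_neg h2]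
    · rw [List.erase_cons_tail (by simpa using hax), stL, stL, ih]

theorem stL_append {l m r : ℕ} (f : Fin n → ℕ) (hlm : l ≤ m) (hmr : m ≤ r) {y : Fin n}
    (hy : l ≤ f y ∧ f y < m) (rest : List (Fin n)) :
    ∀ p : List (Fin n), y ∈ p → (∀ z ∈ p, l ≤ f z → f z < r → z = y) →
      stL l m r f (p ++ rest) = true := by
  intro p
  induction p with
  | nil => intro h; simp at h
  | cons z p ih =>
    intro hyp hz
    rw [List.cons_append]
    by_cases hzy : z = y
    · subst hzy
      simp [stL, hy]
    · have h1 : ¬ (l ≤ f z ∧ f z < m) := fun h =>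
        hzy (hz z (by simp) h.1 (by omega))
      have h2 : ¬ (m ≤ f z ∧ f z < r) := fun h =>
        hzy (hz z (by simp) (by omega) h.2)
      rw [stL, if_neg h1, if_neg h2]
      apply ih
      · rcases List.mem_cons.1 hyp with h3 | h3
        · exact absurd h3.symm hzy
        · exact h3
      · exact fun w hw => hz w (List.mem_cons_of_mem _ hw)

theorem cell_left {k c v : ℕ} (hk : 1 ≤ k) (h : v / k = 2 * c) :
    c * (2 * k) ≤ v ∧ v < c * (2 * k) + k := by
  have h1 := Nat.div_mul_le_self v k
  have h2 := Nat.lt_div_mul_add (a := v) (b := k) (by omega)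
  rw [h] at h1 h2
  have h3 : 2 * c * k = c * (2 * k) := by ring
  rw [h3] at h1 h2
  exact ⟨h1, h2⟩

theorem cell_right {k c v : ℕ} (hk : 1 ≤ k) (h : v / k = 2 * c + 1) :
    c * (2 * k) + k ≤ v ∧ v < (c + 1) * (2 * k) := by
  have h1 := Nat.div_mul_le_self v k
  have h2 := Nat.lt_div_mul_add (a := v) (b := k) (by omega)
  rw [h] at h1 h2
  have h3 : (2 * c + 1) * k = c * (2 * k) + k := by ring
  rw [h3] at h1 h2
  refine ⟨h1, ?_⟩
  have h4 : (c + 1) * (2 * k) = c * (2 * k) + k + k := by ring
  omega

theorem cell_bin {k c v : ℕ} (hk : 1 ≤ k) (h1 : c * (2 * k) ≤ v) (h2 : v < (c + 1) * (2 * k)) :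
    v / k / 2 = c := by
  rw [Nat.div_div_eq_div_mul, mul_comm k 2]
  refine Nat.le_antisymm ?_ ?_
  · exact Nat.lt_succ_iff.1 ((Nat.div_lt_iff_lt_mul (by omega)).2 h2)
  · exact (Nat.le_div_iff_mul_le (by omega)).2 h1

theorem hx_le_cnt (k c s : ℕ) (hk : 1 ≤ k) (f : Fin n → ℕ) : ∀ (X L : List (Fin n)),
    hx k c s f L X ≤ cnt (c * (2 * k)) (c * (2 * k) + k) ((c + 1) * (2 * k))
      (stL (c * (2 * k)) (c * (2 * k) + k) ((c + 1) * (2 * k)) f L) (X.map f) := by
  intro X
  induction X with
  | nil => intro L; simp [hx]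
  | cons x X ih =>
    intro L
    have hmr : c * (2 * k) + k ≤ (c + 1) * (2 * k) := by nlinarith
    have h0 := ih (x :: L.erase x)
    rw [List.map_cons, hx, cnt]
    by_cases h1 : c * (2 * k) ≤ f x ∧ f x < c * (2 * k) + k
    · rw [if_pos h1]
      have h2 : ¬ HB k c f x (L.take s).toFinset := by
        rintro ⟨h3, -⟩
        have := (cell_right hk h3).1
        omega
      have h4 : stL (c * (2 * k)) (c * (2 * k) + k) ((c + 1) * (2 * k)) f (x :: L.erase x) = true := by
        rw [stL, if_pos h1]
      rw [h4] at h0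
      rw [hb, if_neg h2, zero_add]
      exact h0
    · rw [if_neg h1]
      by_cases h2 : c * (2 * k) + k ≤ f x ∧ f x < (c + 1) * (2 * k)
      · rw [if_pos h2]
        have h4 : stL (c * (2 * k)) (c * (2 * k) + k) ((c + 1) * (2 * k)) f (x :: L.erase x) =
            false := by
          rw [stL, if_neg h1, if_pos h2]
        rw [h4] at h0
        refine Nat.add_le_add ?_ h0
        by_cases h3 : HB k c f x (L.take s).toFinset
        · obtain ⟨-, y, hy, hy1, hy2⟩ := h3
          have h5 : stL (c * (2 * k)) (c * (2 * k) + k) ((c + 1) * (2 * k)) f L = true := by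
            conv_lhs => rw [← List.take_append_drop s L]
            refine stL_append f (by omega) hmr (cell_left hk hy1) _ _ (List.mem_toFinset.1 hy) ?_
            intro z hz h6 h7
            exact hy2 z (List.mem_toFinset.2 hz) (cell_bin hk h6 h7)
          rw [h5]
          exact hb_le _ _ _ _ _
        · rw [hb, if_neg h3]
          exact Nat.zero_le _
      · rw [if_neg h2]
        have h4 : stL (c * (2 * k)) (c * (2 * k) + k) ((c + 1) * (2 * k)) f (x :: L.erase x) =
            stL (c * (2 * k)) (c * (2 * k) + k) ((c + 1) * (2 * k)) f L := by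
          rw [stL, if_neg h1, if_neg h2, stL_erase h1 h2]
        rw [h4] at h0
        have h5 : ¬ HB k c f x (L.take s).toFinset := by
          rintro ⟨h3, -⟩
          exact h2 (cell_right hk h3)
        rw [hb, if_neg h5, zero_add]
        exact h0

theorem cnt_true_le (l m r : ℕ) : ∀ Y : List ℕ, cnt l m r true Y ≤ cnt l m r false Y + 1 := by
  intro Y
  induction Y with
  | nil => simp [cnt]
  | cons y Y ih =>
    simp only [cnt]
    split_ifs
    · omega
    · simp_all
    · simp_all; omega
    · exact ih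

theorem cnt_le (l m r : ℕ) (b : Bool) (Y : List ℕ) : cnt l m r b Y ≤ cnt l m r false Y + 1 := by
  cases b with
  | false => omega
  | true => exact cnt_true_le l m r Y

theorem hb_scale {k k' : ℕ} {g f : Fin n → ℕ} (h : ∀ z, g z / k = f z / k') (c : ℕ) (x : Fin n)
    (F : Finset (Fin n)) : hb k c g x F = hb k' c f x F := by
  have h1 : HB k c g x F ↔ HB k' c f x F := by
    unfold HB
    simp only [h]
  unfold hb
  by_cases h2 : HB k c g x F
  · rw [if_pos h2, if_pos (h1.1 h2)]
  · rw [if_neg h2, if_neg (fun h' => h2 (h1.2 h'))]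

theorem Hx_scale {k k' : ℕ} {g f : Fin n → ℕ} (h : ∀ z, g z / k = f z / k') (s : ℕ)
    (X : List (Fin n)) : ∀ L : List (Fin n), Hx k s g L X = Hx k' s f L X := by
  intro L
  unfold Hx
  refine Finset.sum_congr rfl fun c _ => ?_
  induction X generalizing L with
  | nil => rfl
  | cons x X ih => rw [hx, hx, ih, hb_scale h]

/-- all levels together -/
theorem levels_alt (J E i0 : ℕ) (f : Fin n → ℕ) (X L : List (Fin n)) :
    ∑ i ∈ Ico i0 J, Hx (2 ^ (J - 1 - i + E)) (8 * 2 ^ i) f L X ≤
      alt (J + 4 + E) (X.map f) + 16 * 2 ^ J := by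
  have h1 : ∀ i ∈ Ico i0 J, Hx (2 ^ (J - 1 - i + E)) (8 * 2 ^ i) f L X ≤
      (∑ c ∈ range (2 ^ (J + 4 + E - 1 - (J - 1 - i + E))),
        cnt (c * (2 * 2 ^ (J - 1 - i + E))) (c * (2 * 2 ^ (J - 1 - i + E)) + 2 ^ (J - 1 - i + E))
          ((c + 1) * (2 * 2 ^ (J - 1 - i + E))) false (X.map f)) + 16 * 2 ^ i := by
    intro i hi
    rw [Finset.mem_Ico] at hi
    have e1 : J + 4 + E - 1 - (J - 1 - i + E) = 4 + i := by omega
    have e2 : 2 * (8 * 2 ^ i) = 2 ^ (4 + i) := by rw [pow_add]; ring
    rw [e1, Hx, e2]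
    calc ∑ c ∈ range (2 ^ (4 + i)), hx (2 ^ (J - 1 - i + E)) c (8 * 2 ^ i) f L X
        ≤ ∑ c ∈ range (2 ^ (4 + i)), (cnt (c * (2 * 2 ^ (J - 1 - i + E)))
          (c * (2 * 2 ^ (J - 1 - i + E)) + 2 ^ (J - 1 - i + E))
          ((c + 1) * (2 * 2 ^ (J - 1 - i + E))) false (X.map f) + 1) :=
          Finset.sum_le_sum fun c _ =>
            (hx_le_cnt _ c _ Nat.one_le_two_pow f X L).trans (cnt_le _ _ _ _ _)
      _ = _ := by
          rw [Finset.sum_add_distrib, Finset.sum_const, Finset.card_range, smul_eq_mul, mul_one,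
            pow_add]
          norm_num
  refine (Finset.sum_le_sum h1).trans ?_
  rw [Finset.sum_add_distrib]
  refine Nat.add_le_add ?_ ?_
  · unfold alt
    rw [← Finset.sum_image (s := Ico i0 J) (g := fun i => J - 1 - i + E)
      (f := fun e => ∑ c ∈ range (2 ^ (J + 4 + E - 1 - e)),
        cnt (c * (2 * 2 ^ e)) (c * (2 * 2 ^ e) + 2 ^ e) ((c + 1) * (2 * 2 ^ e)) false (X.map f))
      (fun a ha b hb hab => by
        simp only [Finset.coe_Ico, Set.mem_Ico] at ha hb
        dsimp only at hab
        omega)]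
    refine Finset.sum_le_sum_of_subset fun e he => ?_
    rw [Finset.mem_image] at he
    obtain ⟨i, hi, rfl⟩ := he
    rw [Finset.mem_Ico] at hi
    rw [Finset.mem_range]
    omega
  · rw [← Finset.mul_sum]
    refine Nat.mul_le_mul_left _ ?_
    calc ∑ i ∈ Ico i0 J, 2 ^ i ≤ ∑ i ∈ range J, 2 ^ i :=
          Finset.sum_le_sum_of_subset fun i hi => by
            rw [Finset.mem_Ico] at hi; rw [Finset.mem_range]; exact hi.2
      _ ≤ 2 ^ J := by
          have := Nat.geomSum_eq (m := 2) (by norm_num) J
          rw [this]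
          exact (Nat.div_le_self _ _).trans (Nat.sub_le _ _)

/-! ### monotone relabellings of executions -/

/-- the tree with the keys renamed -/
def mapT (φ : ℕ → ℕ) : Tr → Tr
  | Tr.nil => Tr.nil
  | Tr.node a l r => Tr.node (φ a) (mapT φ l) (mapT φ r)

theorem keys_mapT (φ : ℕ → ℕ) (T : Tr) : keys (mapT φ T) = (keys T).map φ := by
  induction T with
  | nil => rfl
  | node a l r ihl ihr => simp [mapT, keys, ihl, ihr]

theorem size_mapT (φ : ℕ → ℕ) (T : Tr) : size (mapT φ T) = size T := by
  induction T with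
  | nil => rfl
  | node a l r ihl ihr => simp [mapT, size, ihl, ihr]

theorem dep_mapT {φ : ℕ → ℕ} (hφ : StrictMono φ) (x : ℕ) (T : Tr) :
    dep (φ x) (mapT φ T) = dep x T := by
  induction T with
  | nil => rfl
  | node a l r ihl ihr =>
    simp only [mapT, dep, ihl, ihr, hφ.lt_iff_lt, hφ.injective.eq_iff]

theorem rot_mapT (φ : ℕ → ℕ) {T T' : Tr} {s : ℕ} (h : Rot T T' s) :
    Rot (mapT φ T) (mapT φ T') s := by
  induction h with
  | right a b A B C =>
    have := Rot.right (φ a) (φ b) (mapT φ A) (mapT φ B) (mapT φ C)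
    rw [show size (Tr.node a (Tr.node b A B) C) =
      size (Tr.node (φ a) (Tr.node (φ b) (mapT φ A) (mapT φ B)) (mapT φ C)) by
        simp [size, size_mapT]]
    exact this
  | left a b A B C =>
    have := Rot.left (φ a) (φ b) (mapT φ A) (mapT φ B) (mapT φ C)
    rw [show size (Tr.node b A (Tr.node a B C)) =
      size (Tr.node (φ b) (mapT φ A) (Tr.node (φ a) (mapT φ B) (mapT φ C))) by
        simp [size, size_mapT]]
    exact this
  | inl a L L' R s _ ih => exact Rot.inl _ _ _ _ _ ih
  | inr a L R R' s _ ih => exact Rot.inr _ _ _ _ _ ih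

theorem rotN_mapT (φ : ℕ → ℕ) {T T' : Tr} {e : ℕ} (h : RotN e T T') :
    RotN e (mapT φ T) (mapT φ T') := by
  induction h with
  | refl T => exact RotN.refl _
  | step e s T T' T'' h1 _ ih => exact RotN.step e s _ _ _ (rot_mapT φ h1) ih

theorem exec_mapT {φ : ℕ → ℕ} (hφ : StrictMono φ) {T : Tr} {Y : List ℕ} {c : ℕ}
    (h : Exec T Y c) : Exec (mapT φ T) (Y.map φ) c := by
  induction h with
  | nil T => exact Exec.nil _
  | cons T T' x Y e c h1 _ ih =>
    have h2 := Exec.cons (mapT φ T) (mapT φ T') (φ x) (Y.map φ) e c (rotN_mapT φ h1) ih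
    rw [dep_mapT hφ] at h2
    exact h2

/-- the permutation with the same order as an injective labelling -/
theorem rank_perm (f : Fin n → ℕ) (hf : Function.Injective f) :
    ∃ (σ : Equiv.Perm (Fin n)) (φ : ℕ → ℕ), StrictMono φ ∧ ∀ x, φ (σ x : ℕ) = f x := by
  classical
  set s : Finset ℕ := Finset.univ.image f with hs
  have hc : s.card = n := by
    rw [hs, Finset.card_image_of_injective _ hf, Finset.card_univ, Fintype.card_fin]
  set e := s.orderEmbOfFin hc with he
  have h1 : ∀ x : Fin n, ∃ j : Fin n, e j = f x := by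
    intro x
    have h2 : f x ∈ Set.range e := by
      rw [he, Finset.range_orderEmbOfFin]
      exact Finset.mem_coe.2 (Finset.mem_image_of_mem f (Finset.mem_univ x))
    exact h2
  choose σ0 hσ0 using h1
  have hinj : Function.Injective σ0 := by
    intro a b hab
    apply hf
    rw [← hσ0 a, ← hσ0 b, hab]
  have hbij : Function.Bijective σ0 := Finite.injective_iff_bijective.1 hinj
  set M : ℕ := s.sup id + 1 with hM
  refine ⟨Equiv.ofBijective σ0 hbij, fun k => if h : k < n then e ⟨k, h⟩ else k + M, ?_, ?_⟩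
  · intro a b hab
    by_cases hb : b < n
    · have ha : a < n := by omega
      simp only [ha, hb, dif_pos]
      exact e.strictMono (by simpa using hab)
    · by_cases ha : a < n
      · simp only [ha, hb, dif_pos, dif_neg, not_false_eq_true]
        have h2 : e ⟨a, ha⟩ ∈ s := Finset.orderEmbOfFin_mem s hc ⟨a, ha⟩
        have h3 : e ⟨a, ha⟩ ≤ s.sup id := Finset.le_sup (f := id) h2
        omega
      · simp only [ha, hb, dif_neg, not_false_eq_true]
        omega
  · intro x
    simp only [Equiv.ofBijective_apply, Fin.is_lt, dif_pos, Fin.eta]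
    exact hσ0 x

/-- the interleave bound for the optimum -/
theorem opt_ge {T : Tr} (hT : keys T = List.range n) (σ : Equiv.Perm (Fin n)) (φ : ℕ → ℕ)
    (hφ : StrictMono φ) (f : Fin n → ℕ) (hf : ∀ x, φ (σ x : ℕ) = f x) (X : List (Fin n)) (D : ℕ) :
    (alt D (X.map f) : ℝ) ≤ 2 * optAny (List.range n) (rel σ X) := by
  have h1 : ((alt D (X.map f) : ℝ)) / 2 ≤ (optAny (List.range n) (rel σ X) : ℝ) := by
    refine optAny_ge hT fun T' c hT' hE => ?_
    have h2 := exec_mapT hφ hE
    have h3 : (rel σ X).map φ = X.map f := by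
      unfold rel
      rw [List.map_map]
      exact List.map_congr_left fun x _ => hf x
    rw [h3] at h2
    have h4 : keys (mapT φ T') = (List.range n).map φ := by rw [keys_mapT, hT']
    have h5 := holds_VAL (mapT φ T') (X.map f) c D (by
      unfold IsBST
      rw [h4, List.pairwise_map]
      exact List.pairwise_lt_range.imp fun h => hφ h) (fun y hy => by
      rw [List.mem_map] at hy
      obtain ⟨x, -, rfl⟩ := hy
      rw [h4, List.mem_map]
      exact ⟨(σ x : ℕ), List.mem_range.2 (σ x).2, hf x⟩) h2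
    have h6 : ((alt D (X.map f) : ℕ) : ℝ) ≤ ((2 * c : ℕ) : ℝ) := by exact_mod_cast h5
    push_cast at h6
    linarith
  linarith

/-! ### working sets -/

theorem tw_erase {x y : Fin n} (hxy : y ≠ x) : ∀ L : List (Fin n),
    (L.erase y).takeWhile (fun z => decide (z ≠ x)) =
      (L.takeWhile (fun z => decide (z ≠ x))).erase y := by
  intro L
  induction L with
  | nil => rfl
  | cons a L ih =>
    by_cases hay : a = y
    · subst hay
      rw [List.erase_cons_head, List.takeWhile_cons]
      simp [hxy]
    · rw [List.erase_cons_tail (by simpa using hay), List.takeWhile_cons, List.takeWhile_cons]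
      by_cases hax : a = x
      · simp [hax]
      · simp only [ne_eq, hax, not_false_eq_true, decide_true, if_true]
        rw [List.erase_cons_tail (by simpa using hay)]
        simp only [ne_eq] at ih
        rw [ih]

theorem tw_len {x : Fin n} : ∀ (L : List (Fin n)) (s : ℕ), x ∈ L.take s →
    (L.takeWhile (fun z => decide (z ≠ x))).length < s := by
  intro L
  induction L with
  | nil => intro s h; simp at h
  | cons a L ih =>
    intro s h
    cases s with
    | zero => simp at h
    | succ s =>
      rw [List.takeWhile_cons]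
      by_cases hax : a = x
      · simp [hax]
      · simp only [ne_eq, hax, not_false_eq_true, decide_true, if_true, List.length_cons]
        rw [List.take_succ_cons, List.mem_cons] at h
        rcases h with h | h
        · exact absurd h.symm hax
        · have := ih s h
          simp only [ne_eq] at this
          omega

/-- the history `h` and the list `L` are compatible -/
def Comp (h L : List (Fin n)) : Prop := ∀ x z : Fin n,
  z ∈ h.takeWhile (fun w => decide (w ≠ x)) → z ∈ L.takeWhile (fun w => decide (w ≠ x))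

theorem Comp.next {h L : List (Fin n)} (hc : Comp h L) (y : Fin n) :
    Comp (y :: h) (y :: L.erase y) := by
  intro x z hz
  rw [List.takeWhile_cons] at hz ⊢
  by_cases hyx : y = x
  · simp [hyx] at hz
  · simp only [ne_eq, hyx, not_false_eq_true, decide_true, if_true, List.mem_cons] at hz ⊢
    by_cases hzy : z = y
    · exact Or.inl hzy
    · rcases hz with hz | hz
      · exact Or.inl hz
      · right
        have h1 := tw_erase hyx L
        simp only [ne_eq] at h1
        rw [h1, List.mem_erase_of_ne hzy]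
        have := hc x z
        simp only [ne_eq] at this
        exact this hz

theorem log_le (t i0 : ℕ) (htn : t + 1 ≤ n) :
    Real.logb 2 (t + 1) ≤ ((Ico i0 (Nat.log 2 n - 2)).filter fun i => 8 * 2 ^ i ≤ t).card +
      (3 + i0 : ℝ) := by
  rcases Nat.eq_zero_or_pos t with h0 | h0
  · subst h0
    simp only [Nat.cast_zero, zero_add, Real.logb_one]
    positivity
  · set a : ℕ := Nat.log 2 t with ha
    have h1 : 2 ^ a ≤ t := Nat.pow_log_le_self 2 (by omega)
    have h2 : t < 2 ^ (a + 1) := Nat.lt_pow_succ_log_self (by norm_num) _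
    have h3 : a ≤ Nat.log 2 n := Nat.log_mono_right (by omega)
    have h4 : Real.logb 2 (t + 1) ≤ (a : ℝ) + 1 := by
      rw [Real.logb_le_iff_le_rpow (by norm_num) (by positivity)]
      have h5 : ((t + 1 : ℕ) : ℝ) ≤ ((2 ^ (a + 1) : ℕ) : ℝ) := by exact_mod_cast h2
      have h5' : (2 : ℝ) ^ ((a : ℝ) + 1) = ((2 ^ (a + 1) : ℕ) : ℝ) := by
        rw [← Nat.cast_succ, Real.rpow_natCast]
        push_cast
        rfl
      rw [h5']
      push_cast at h5 ⊢
      exact h5
    have h6 : Ico i0 (a - 2) ⊆ (Ico i0 (Nat.log 2 n - 2)).filter fun i => 8 * 2 ^ i ≤ t := by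
      intro i hi
      rw [Finset.mem_Ico] at hi
      rw [Finset.mem_filter, Finset.mem_Ico]
      refine ⟨⟨hi.1, by omega⟩, ?_⟩
      calc 8 * 2 ^ i = 2 ^ (i + 3) := by rw [pow_add]; ring
        _ ≤ 2 ^ a := Nat.pow_le_pow_right (by norm_num) (by omega)
        _ ≤ t := h1
    have h7 := Finset.card_le_card h6
    rw [Nat.card_Ico] at h7
    have h8 : a + 1 ≤ ((Ico i0 (Nat.log 2 n - 2)).filter fun i => 8 * 2 ^ i ≤ t).card +
      (3 + i0) := by omega
    have h9 : ((a + 1 : ℕ) : ℝ) ≤ ((((Ico i0 (Nat.log 2 n - 2)).filter fun i =>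
      8 * 2 ^ i ≤ t).card + (3 + i0) : ℕ) : ℝ) := by exact_mod_cast h8
    push_cast at h9
    linarith

/-- the working set bound by the numbers of misses -/
theorem wsum_le (i0 : ℕ) : ∀ (X h L : List (Fin n)), Comp h L →
    wsumF h X ≤ ((∑ i ∈ Ico i0 (Nat.log 2 n - 2), Um (8 * 2 ^ i) L X : ℕ) : ℝ) +
      (3 + i0) * X.length := by
  intro X
  induction X with
  | nil =>
    intro h L _
    simp [wsumF, Um]
  | cons x X ih =>
    intro h L hc
    have h1 := ih (x :: h) (x :: L.erase x) (hc.next x)
    have h2 := log_le (wsF h x) i0 (wsF_lt h x)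
    have h3 : wsF h x ≤ (L.takeWhile (fun w => decide (w ≠ x))).length := by
      unfold wsF
      refine le_trans (Finset.card_le_card ?_) (List.toFinset_card_le _)
      intro z hz
      rw [List.mem_toFinset] at hz ⊢
      exact hc x z hz
    have h4 : ((Ico i0 (Nat.log 2 n - 2)).filter fun i => 8 * 2 ^ i ≤ wsF h x).card ≤
        ∑ i ∈ Ico i0 (Nat.log 2 n - 2), if x ∈ L.take (8 * 2 ^ i) then 0 else 1 := by
      rw [Finset.card_filter]
      refine Finset.sum_le_sum fun i _ => ?_
      by_cases h5 : 8 * 2 ^ i ≤ wsF h x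
      · have h6 : x ∉ L.take (8 * 2 ^ i) := fun h7 => by
          have := tw_len L _ h7
          omega
        rw [if_pos h5, if_neg h6]
      · rw [if_neg h5]; exact Nat.zero_le _
    have h5 : ∑ i ∈ Ico i0 (Nat.log 2 n - 2), Um (8 * 2 ^ i) L (x :: X) =
        (∑ i ∈ Ico i0 (Nat.log 2 n - 2), if x ∈ L.take (8 * 2 ^ i) then 0 else 1) +
        ∑ i ∈ Ico i0 (Nat.log 2 n - 2), Um (8 * 2 ^ i) (x :: L.erase x) X := by
      rw [← Finset.sum_add_distrib]
      rfl
    rw [h5, wsumF, List.length_cons]
    have h6 : ((((Ico i0 (Nat.log 2 n - 2)).filter fun i => 8 * 2 ^ i ≤ wsF h x).card : ℕ) : ℝ) ≤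
        ((∑ i ∈ Ico i0 (Nat.log 2 n - 2), if x ∈ L.take (8 * 2 ^ i) then 0 else 1 : ℕ) : ℝ) := by
      exact_mod_cast h4
    rw [Nat.cast_add, Nat.cast_add]
    push_cast at h1 h6 ⊢
    linarith

/-- every key outside the initial cache has to be missed -/
theorem miss_ge {s : ℕ} (h1 : 1 ≤ s) (hs : s ≤ n) : ∀ (X L : List (Fin n)), Full L →
    (X.toFinset \ (L.take s).toFinset).card ≤ Um s L X := by
  intro X
  induction X with
  | nil => intro L _; simp
  | cons x X ih =>
    intro L hL
    have h2 := ih (x :: L.erase x) (hL.next x)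
    rw [Um]
    by_cases hx : x ∈ L.take s
    · rw [if_pos hx, zero_add]
      rw [take_hit hL hx] at h2
      refine le_trans (Finset.card_le_card ?_) h2
      intro y hy
      rw [Finset.mem_sdiff, List.mem_toFinset, List.mem_cons, List.mem_toFinset] at hy
      rw [Finset.mem_sdiff, List.mem_toFinset, List.mem_toFinset]
      refine ⟨?_, hy.2⟩
      rcases hy.1 with h | h
      · exact absurd (h ▸ hx) hy.2
      · exact h
    · rw [if_neg hx]
      obtain ⟨e, he1, -⟩ := take_miss hL h1 hs hx
      rw [he1] at h2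
      have h3 : (x :: X).toFinset \ (L.take s).toFinset ⊆
          insert x (X.toFinset \ insert x ((L.take s).toFinset.erase e)) := by
        intro y hy
        rw [Finset.mem_sdiff, List.mem_toFinset, List.mem_cons] at hy
        rw [Finset.mem_insert]
        by_cases hyx : y = x
        · exact Or.inl hyx
        · right
          rw [Finset.mem_sdiff, Finset.mem_insert, Finset.mem_erase, List.mem_toFinset]
          refine ⟨?_, ?_⟩
          · rcases hy.1 with h | h
            · exact absurd h hyx
            · exact h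
          · rintro (h | h)
            · exact hyx h
            · exact hy.2 h.2
      refine (Finset.card_le_card h3).trans ((Finset.card_insert_le _ _).trans ?_)
      omega

end Pool.Agent.U325.FO
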