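import Pool.Agent.U325.FO.Lru

set_option autoImplicit false

/-!
# Few orders for splay trees: existence of the family
-/

namespace Pool.Agent.U325.FO

open Finset

theorem exists_ofFn {α : Type} (P : List α) (m : ℕ) (h : P.length = m) :
    ∃ p : Fin m → α, List.ofFn p = P := by
  subst h
  exact ⟨P.get, List.ofFn_get P⟩

open Classical in
/-- the tuples which fail at one level -/
theorem level_union (n N d m k W : ℕ) (hn : 2 ≤ n) (hd : 1 ≤ d) (hm : 1 ≤ m) (hk : 1 ≤ k)
    (hW : W = 4 * (8 * m) * k) (hmd : 294912 * d ≤ m)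
    (hN : 3244032 * d * Real.log n ≤ N) :
    ((Finset.univ.filter fun G : Fin N → Fin n → Fin W =>
      ¬ Fam N d m k (fun a z => (G a z : ℕ))).card : ℝ) ≤ ((W : ℝ) ^ n) ^ N / n := by
  have hWp : 0 < W := by rw [hW]; positivity
  have hdr : (1 : ℝ) ≤ d := by exact_mod_cast hd
  have hmr : (1 : ℝ) ≤ m := by exact_mod_cast hm
  have hnr : (2 : ℝ) ≤ n := by exact_mod_cast hn
  have hlog : 0 < Real.log n := Real.log_pos (by linarith)
  set Bad : Finset (Fin n) × (Fin m → Fin n × Fin n) → Finset (Fin N → Fin n → Fin W) := fun q =>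
    if Vp (8 * m) q.1 (List.ofFn q.2) then
      Finset.univ.filter fun G : Fin N → Fin n → Fin W => (N : ℝ) / d <
        ((Finset.univ.filter fun a => 32 * Hp k (8 * m) (fun z => (G a z : ℕ)) q.1
          (List.ofFn q.2) < m).card : ℝ)
    else ∅ with hBad
  set β : ℝ := ((W : ℝ) ^ n) with hβ
  have hβc : ((Fintype.card (Fin n → Fin W) : ℕ) : ℝ) = β := by
    rw [Fintype.card_fun, Fintype.card_fin, Fintype.card_fin]; push_cast; rfl
  have hβ0 : 0 < β := by
    rw [hβ]
    have : (0 : ℝ) < W := by exact_mod_cast hWp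
    positivity
  have hcard : ∀ q, ((Bad q).card : ℝ) ≤ β ^ N * Real.exp (-(m * (11 * Real.log n))) := by
    intro q
    by_cases hV : Vp (8 * m) q.1 (List.ofFn q.2)
    · have h1 := few_hits m k W hm hk hW q.1 (List.ofFn q.2) hV (by rw [List.length_ofFn])
      have h2 := many_bad (β := Fin n → Fin W)
        (fun g => 32 * Hp k (8 * m) (fun z => (g z : ℕ)) q.1 (List.ofFn q.2) < m) N
        ((m : ℝ) / 147456) (Real.exp (-(m / 147456))) ((N : ℝ) / d) (by positivity)
        (by rw [hβc]; exact h1)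
        (by rw [← Real.exp_add]; simp)
      have h3 : (Bad q).card = (Finset.univ.filter fun G : Fin N → Fin n → Fin W => (N : ℝ) / d <
        ((Finset.univ.filter fun a => 32 * Hp k (8 * m) (fun z => (G a z : ℕ)) q.1
          (List.ofFn q.2) < m).card : ℝ)).card := by
        simp only [hBad, if_pos hV]
      rw [h3]
      rw [hβc] at h2
      refine h2.trans (mul_le_mul_of_nonneg_left (Real.exp_le_exp.2 ?_) (by positivity))
      have h4 : (294912 : ℝ) * d ≤ m := by exact_mod_cast hmd
      have h5 : (N : ℝ) ≤ m / 147456 * (N / d) / 2 := by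
        have h6 : (2 : ℝ) ≤ m / 147456 / d := by
          rw [div_div, le_div_iff₀ (by positivity)]; linarith
        have h7 : (m : ℝ) / 147456 * (N / d) / 2 = (m / 147456 / d) / 2 * N := by ring
        rw [h7]
        have h8 : (0 : ℝ) ≤ N := Nat.cast_nonneg _
        nlinarith
      have h9 : (m : ℝ) * (11 * Real.log n) ≤ m / 147456 * (N / d) / 2 := by
        have h10 : (m : ℝ) / 147456 * (N / d) / 2 = m * (N / (294912 * d)) := by
          field_simp
          ring
        rw [h10]
        refine mul_le_mul_of_nonneg_left ?_ (by linarith)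
        rw [le_div_iff₀ (by positivity)]
        linarith
      linarith
    · have : Bad q = ∅ := by simp only [hBad, if_neg hV]
      rw [this, Finset.card_empty]
      push_cast
      positivity
  have hsub : (Finset.univ.filter fun G : Fin N → Fin n → Fin W =>
      ¬ Fam N d m k (fun a z => (G a z : ℕ))) ⊆
      (powersetCard (8 * m) (Finset.univ : Finset (Fin n)) ×ˢ
        (Finset.univ : Finset (Fin m → Fin n × Fin n))).biUnion Bad := by
    intro G hG
    rw [Finset.mem_filter] at hG
    have h1 := hG.2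
    unfold Fam at h1
    push Not at h1
    obtain ⟨F, P, hV, hP, hlt⟩ := h1
    obtain ⟨p, rfl⟩ := exists_ofFn P m hP
    rw [Finset.mem_biUnion]
    refine ⟨(F, p), ?_, ?_⟩
    · rw [Finset.mem_product, Finset.mem_powersetCard]
      exact ⟨⟨Finset.subset_univ _, Vp_card hV⟩, Finset.mem_univ _⟩
    · simp only [hBad, if_pos hV]
      rw [Finset.mem_filter]
      refine ⟨Finset.mem_univ _, ?_⟩
      rw [div_lt_iff₀ (by linarith)]
      have h2 : (N : ℝ) < ((d * (Finset.univ.filter fun a => 32 * Hp k (8 * m)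
          (fun z => (G a z : ℕ)) F (List.ofFn p) < m).card : ℕ) : ℝ) := by
        exact_mod_cast hlt
      push_cast at h2
      linarith
  have h1 : ((Finset.univ.filter fun G : Fin N → Fin n → Fin W =>
      ¬ Fam N d m k (fun a z => (G a z : ℕ))).card : ℝ) ≤
      ∑ q ∈ (powersetCard (8 * m) (Finset.univ : Finset (Fin n)) ×ˢ
        (Finset.univ : Finset (Fin m → Fin n × Fin n))), ((Bad q).card : ℝ) := by
    exact_mod_cast (Finset.card_le_card hsub).trans Finset.card_biUnion_le
  have h2 := h1.trans (Finset.sum_le_sum fun q _ => hcard q)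
  rw [Finset.sum_const, nsmul_eq_mul, Finset.card_product, Finset.card_powersetCard,
    Finset.card_univ, Finset.card_univ, Fintype.card_fun, Fintype.card_prod, Fintype.card_fin,
    Fintype.card_fin] at h2
  have h3 : (((n.choose (8 * m) * (n * n) ^ m : ℕ)) : ℝ) ≤ Real.exp (m * (10 * Real.log n)) := by
    have h4 : n.choose (8 * m) * (n * n) ^ m ≤ n ^ (10 * m) := by
      have h5 : n.choose (8 * m) ≤ n ^ (8 * m) := Nat.choose_le_pow n (8 * m)
      calc n.choose (8 * m) * (n * n) ^ m ≤ n ^ (8 * m) * (n * n) ^ m := Nat.mul_le_mul_right _ h5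
        _ = n ^ (10 * m) := by
          rw [← pow_two, ← pow_mul, ← pow_add]
          congr 1; ring
    have h6 : Real.exp (m * (10 * Real.log n)) = (n : ℝ) ^ (10 * m) := by
      rw [show (m : ℝ) * (10 * Real.log n) = ((10 * m : ℕ) : ℝ) * Real.log n by push_cast; ring,
        Real.exp_nat_mul, Real.exp_log (by linarith)]
    rw [h6]
    exact_mod_cast h4
  calc ((Finset.univ.filter fun G : Fin N → Fin n → Fin W =>
      ¬ Fam N d m k (fun a z => (G a z : ℕ))).card : ℝ)
      ≤ ((n.choose (8 * m) * (n * n) ^ m : ℕ) : ℝ) *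
          (β ^ N * Real.exp (-(m * (11 * Real.log n)))) := h2
    _ ≤ Real.exp (m * (10 * Real.log n)) * (β ^ N * Real.exp (-(m * (11 * Real.log n)))) :=
        mul_le_mul_of_nonneg_right h3 (by positivity)
    _ = β ^ N * Real.exp (-(m * Real.log n)) := by
        rw [mul_left_comm, ← Real.exp_add]
        congr 2; ring
    _ ≤ β ^ N * Real.exp (-Real.log n) := by
        refine mul_le_mul_of_nonneg_left (Real.exp_le_exp.2 ?_) (by positivity)
        nlinarith
    _ = β ^ N / n := by
        rw [Real.exp_neg, Real.exp_log (by linarith)]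
        rfl

/-- **The family exists.** -/
theorem exists_family (n N d i0 J : ℕ) (hn : 2 ≤ n) (hd : 1 ≤ d)
    (hJ : J < n) (hi0 : 294912 * d ≤ 2 ^ i0) (hN : 3244032 * d * Real.log n ≤ N) :
    ∃ g : Fin N → Fin n → Fin (2 ^ (J + 4)), ∀ i, i0 ≤ i → i < J →
      Fam N d (2 ^ i) (2 ^ (J - 1 - i)) (fun a z => (g a z : ℕ)) := by
  classical
  by_contra hcon
  push Not at hcon
  set W : ℕ := 2 ^ (J + 4) with hW
  have hsub : (Finset.univ : Finset (Fin N → Fin n → Fin W)) ⊆
      (Ico i0 J).biUnion fun i => Finset.univ.filter fun G : Fin N → Fin n → Fin W =>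
        ¬ Fam N d (2 ^ i) (2 ^ (J - 1 - i)) (fun a z => (G a z : ℕ)) := by
    intro G _
    obtain ⟨i, h1, h2, h3⟩ := hcon G
    rw [Finset.mem_biUnion]
    exact ⟨i, Finset.mem_Ico.2 ⟨h1, h2⟩, Finset.mem_filter.2 ⟨Finset.mem_univ _, h3⟩⟩
  have h1 : ((Fintype.card (Fin N → Fin n → Fin W) : ℕ) : ℝ) ≤
      ∑ i ∈ Ico i0 J, ((Finset.univ.filter fun G : Fin N → Fin n → Fin W =>
        ¬ Fam N d (2 ^ i) (2 ^ (J - 1 - i)) (fun a z => (G a z : ℕ))).card : ℝ) := by
    have := (Finset.card_le_card hsub).trans Finset.card_biUnion_le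
    rw [Finset.card_univ] at this
    exact_mod_cast this
  have h2 : ∀ i ∈ Ico i0 J, ((Finset.univ.filter fun G : Fin N → Fin n → Fin W =>
        ¬ Fam N d (2 ^ i) (2 ^ (J - 1 - i)) (fun a z => (G a z : ℕ))).card : ℝ) ≤
        ((W : ℝ) ^ n) ^ N / n := by
    intro i hi
    rw [Finset.mem_Ico] at hi
    have h3 := level_union n N d (2 ^ i) (2 ^ (J - 1 - i)) W hn hd Nat.one_le_two_pow
      Nat.one_le_two_pow (by
        rw [hW, show (4 : ℕ) * (8 * 2 ^ i) * 2 ^ (J - 1 - i) = 2 ^ 5 * (2 ^ i * 2 ^ (J - 1 - i)) by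
          ring, ← pow_add, ← pow_add]
        congr 1; omega)
      (hi0.trans (Nat.pow_le_pow_right (by norm_num) hi.1)) hN
    convert h3
  have h3 := h1.trans (Finset.sum_le_sum h2)
  rw [Finset.sum_const, nsmul_eq_mul, Nat.card_Ico, Fintype.card_fun, Fintype.card_fun,
    Fintype.card_fin, Fintype.card_fin, Fintype.card_fin] at h3
  push_cast at h3
  have hnr : (2 : ℝ) ≤ n := by exact_mod_cast hn
  have hWp : (0 : ℝ) < (W : ℝ) := by rw [hW]; positivity
  have hpos : 0 < ((W : ℝ) ^ n) ^ N := by positivity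
  have h4 : ((J - i0 : ℕ) : ℝ) ≤ J := by exact_mod_cast Nat.sub_le _ _
  have h5 : (J : ℝ) < n := by exact_mod_cast hJ
  have h6 : ((J - i0 : ℕ) : ℝ) * (((W : ℝ) ^ n) ^ N / n) < ((W : ℝ) ^ n) ^ N := by
    rw [mul_div_assoc', div_lt_iff₀ (by linarith)]
    nlinarith
  linarith

end Pool.Agent.U325.FO
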