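import Pool.Agent.U325.FO.Prob

set_option autoImplicit false

/-!
# Few orders for splay trees: hits of a pattern

A pattern is a set `F` of `s` keys with a list of exchanges `(x, e)` (the latest first): `x` enters and
`e` leaves. A labelling hits the pattern at `x` in the bin `c` if `x` is in the right half of the bin
and exactly one member of the current set is in this bin, in its left half.
-/

namespace Pool.Agent.U325.FO

open Finset

variable {n : ℕ}

/-- `x` is in the right half of the bin `c` (the halves have length `k`), exactly one member of `F` is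
in this bin, and it is in the left half -/
def HB (k c : ℕ) (g : Fin n → ℕ) (x : Fin n) (F : Finset (Fin n)) : Prop :=
  g x / k = 2 * c + 1 ∧ ∃ y ∈ F, g y / k = 2 * c ∧ ∀ z ∈ F, g z / k / 2 = c → z = y

open Classical in
/-- indicator of `HB` -/
noncomputable def hb (k c : ℕ) (g : Fin n → ℕ) (x : Fin n) (F : Finset (Fin n)) : ℕ :=
  if HB k c g x F then 1 else 0

/-- the set after the exchanges -/
def stt (F : Finset (Fin n)) : List (Fin n × Fin n) → Finset (Fin n)
  | [] => F
  | a :: P => insert a.1 ((stt F P).erase a.2)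

/-- the admissible patterns: the key which enters is new, the keys which entered stay -/
def Vp (s : ℕ) (F : Finset (Fin n)) : List (Fin n × Fin n) → Prop
  | [] => F.card = s
  | a :: P => Vp s F P ∧ (stt F P).card = s ∧ a.1 ∉ stt F P ∧ ∀ b ∈ P, b.1 ∈ stt F P

/-- number of hits in the bin `c` -/
noncomputable def hp (k c : ℕ) (g : Fin n → ℕ) (F : Finset (Fin n)) : List (Fin n × Fin n) → ℕ
  | [] => 0
  | a :: P => hb k c g a.1 (stt F P) + hp k c g F P

/-- number of hits -/
noncomputable def Hp (k s : ℕ) (g : Fin n → ℕ) (F : Finset (Fin n)) (P : List (Fin n × Fin n)) : ℕ :=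
  ∑ c ∈ range (2 * s), hp k c g F P

theorem hb_le (k c : ℕ) (g : Fin n → ℕ) (x : Fin n) (F : Finset (Fin n)) : hb k c g x F ≤ 1 := by
  unfold hb; split_ifs <;> omega

theorem hp_ne_zero {k c : ℕ} {g : Fin n → ℕ} {F : Finset (Fin n)} : ∀ {P : List (Fin n × Fin n)},
    hp k c g F P ≠ 0 → ∃ b ∈ P, g b.1 / k = 2 * c + 1 := by
  intro P
  induction P with
  | nil => intro h; exact absurd rfl h
  | cons a P ih =>
    intro h
    by_cases h1 : hp k c g F P = 0
    · have h2 : HB k c g a.1 (stt F P) := by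
        by_contra hcon
        exact h (by simp [hp, hb, hcon, h1])
      exact ⟨a, by simp, h2.1⟩
    · obtain ⟨b, hb1, hb2⟩ := ih h1
      exact ⟨b, List.mem_cons_of_mem _ hb1, hb2⟩

theorem hp_le_one {k c s : ℕ} {g : Fin n → ℕ} {F : Finset (Fin n)} : ∀ {P : List (Fin n × Fin n)},
    Vp s F P → hp k c g F P ≤ 1 := by
  intro P
  induction P with
  | nil => intro _; simp [hp]
  | cons a P ih =>
    intro hV
    obtain ⟨h1, -, -, h4⟩ := hV
    by_cases h0 : hp k c g F P = 0
    · simp only [hp, h0, add_zero]; exact hb_le _ _ _ _ _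
    · obtain ⟨b, hb1, hb2⟩ := hp_ne_zero h0
      have h5 : ¬ HB k c g a.1 (stt F P) := by
        rintro ⟨-, y, hy, hy2, hy3⟩
        have h6 := hy3 b.1 (h4 b hb1) (by omega)
        rw [h6] at hb2
        omega
      simp only [hp, hb, h5, if_false, zero_add]
      exact ih h1

theorem hb_congr {k c : ℕ} {g g' : Fin n → ℕ} (x : Fin n) (F : Finset (Fin n))
    (hx : g x / k = 2 * c + 1 ↔ g' x / k = 2 * c + 1)
    (h0 : ∀ z ∈ F, g z / k = 2 * c ↔ g' z / k = 2 * c)
    (h1 : ∀ z ∈ F, g z / k = 2 * c + 1 ↔ g' z / k = 2 * c + 1) :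
    hb k c g x F = hb k c g' x F := by
  have h2 : ∀ z ∈ F, (g z / k / 2 = c ↔ g' z / k / 2 = c) := by
    intro z hz
    have a1 := h0 z hz
    have a2 := h1 z hz
    constructor
    · intro h
      have : g z / k = 2 * c ∨ g z / k = 2 * c + 1 := by omega
      rcases this with h' | h'
      · have := a1.1 h'; omega
      · have := a2.1 h'; omega
    · intro h
      have : g' z / k = 2 * c ∨ g' z / k = 2 * c + 1 := by omega
      rcases this with h' | h'
      · have := a1.2 h'; omega
      · have := a2.2 h'; omega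
  have h3 : HB k c g x F ↔ HB k c g' x F := by
    unfold HB
    refine and_congr hx ⟨?_, ?_⟩
    · rintro ⟨y, hy, hy1, hy2⟩
      exact ⟨y, hy, (h0 y hy).1 hy1, fun z hz hz2 => hy2 z hz ((h2 z hz).2 hz2)⟩
    · rintro ⟨y, hy, hy1, hy2⟩
      exact ⟨y, hy, (h0 y hy).2 hy1, fun z hz hz2 => hy2 z hz ((h2 z hz).1 hz2)⟩
  unfold hb
  by_cases h : HB k c g x F
  · rw [if_pos h, if_pos (h3.1 h)]
  · rw [if_neg h, if_neg (fun h' => h (h3.2 h'))]

theorem stt_sub (F : Finset (Fin n)) : ∀ (P : List (Fin n × Fin n)) (y : Fin n), y ∈ stt F P →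
    y ∈ F ∨ ∃ b ∈ P, b.1 = y := by
  intro P
  induction P with
  | nil => intro y hy; exact Or.inl hy
  | cons a P ih =>
    intro y hy
    rw [stt, Finset.mem_insert, Finset.mem_erase] at hy
    rcases hy with hy | hy
    · exact Or.inr ⟨a, by simp, hy.symm⟩
    · rcases ih y hy.2 with h | ⟨b, hb1, hb2⟩
      · exact Or.inl h
      · exact Or.inr ⟨b, List.mem_cons_of_mem _ hb1, hb2⟩

theorem hp_congr {k c : ℕ} {g g' : Fin n → ℕ} (F : Finset (Fin n)) : ∀ (P : List (Fin n × Fin n)),
    (∀ z, (z ∈ F ∨ ∃ b ∈ P, b.1 = z) → (g z / k = 2 * c ↔ g' z / k = 2 * c)) →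
    (∀ z, (z ∈ F ∨ ∃ b ∈ P, b.1 = z) → (g z / k = 2 * c + 1 ↔ g' z / k = 2 * c + 1)) →
    hp k c g F P = hp k c g' F P := by
  intro P
  induction P with
  | nil => intro _ _; rfl
  | cons a P ih =>
    intro h0 h1
    have hsub : ∀ z, (z ∈ F ∨ ∃ b ∈ P, b.1 = z) → (z ∈ F ∨ ∃ b ∈ a :: P, b.1 = z) := by
      rintro z (h | ⟨b, h2, h3⟩)
      · exact Or.inl h
      · exact Or.inr ⟨b, List.mem_cons_of_mem _ h2, h3⟩
    simp only [hp]
    rw [ih (fun z hz => h0 z (hsub z hz)) (fun z hz => h1 z (hsub z hz))]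
    congr 1
    refine hb_congr _ _ (h1 a.1 (Or.inr ⟨a, by simp, rfl⟩)) (fun z hz => ?_) (fun z hz => ?_)
    · exact h0 z (hsub z (stt_sub F P z hz))
    · exact h1 z (hsub z (stt_sub F P z hz))

/-- changing one label changes the number of hits by at most two -/
theorem Hp_lip {k s : ℕ} {F : Finset (Fin n)} {P : List (Fin n × Fin n)} (hV : Vp s F P)
    (g : Fin n → ℕ) (z : Fin n) (v : ℕ) :
    |(Hp k s (Function.update g z v) F P : ℝ) - Hp k s g F P| ≤ 2 := by
  unfold Hp
  push_cast
  rw [← Finset.sum_sub_distrib]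
  refine (Finset.abs_sum_le_sum_abs _ _).trans ?_
  have h1 : ∀ c ∈ range (2 * s), |(hp k c (Function.update g z v) F P : ℝ) - hp k c g F P| ≤
      (if c = g z / k / 2 then (1 : ℝ) else 0) + (if c = v / k / 2 then 1 else 0) := by
    intro c _
    by_cases h2 : c = g z / k / 2 ∨ c = v / k / 2
    · have a1 : (hp k c (Function.update g z v) F P : ℝ) ≤ 1 := by exact_mod_cast hp_le_one hV
      have a2 : (hp k c g F P : ℝ) ≤ 1 := by exact_mod_cast hp_le_one hV
      have a3 : (0 : ℝ) ≤ (hp k c (Function.update g z v) F P : ℝ) := Nat.cast_nonneg _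
      have a4 : (0 : ℝ) ≤ (hp k c g F P : ℝ) := Nat.cast_nonneg _
      have a5 : |(hp k c (Function.update g z v) F P : ℝ) - hp k c g F P| ≤ 1 := by
        rw [abs_le]; constructor <;> linarith
      refine a5.trans ?_
      rcases h2 with h2 | h2
      · rw [if_pos h2]; split_ifs <;> norm_num
      · rw [if_pos h2]; split_ifs <;> norm_num
    · push Not at h2
      rw [if_neg h2.1, if_neg h2.2]
      have h3 : hp k c (Function.update g z v) F P = hp k c g F P := by
        refine hp_congr F P (fun y _ => ?_) (fun y _ => ?_)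
        · by_cases hy : y = z
          · subst hy
            rw [Function.update_self]
            have := h2.1
            have := h2.2
            constructor <;> intro h <;> omega
          · rw [Function.update_of_ne hy]
        · by_cases hy : y = z
          · subst hy
            rw [Function.update_self]
            have := h2.1
            have := h2.2
            constructor <;> intro h <;> omega
          · rw [Function.update_of_ne hy]
      rw [h3]; simp
  refine (Finset.sum_le_sum h1).trans ?_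
  rw [Finset.sum_add_distrib, Finset.sum_ite_eq', Finset.sum_ite_eq']
  split_ifs <;> norm_num

theorem Hp_indep {k s : ℕ} {F : Finset (Fin n)} {P : List (Fin n × Fin n)}
    (g : Fin n → ℕ) (z : Fin n) (v : ℕ) (hz : ¬ (z ∈ F ∨ ∃ b ∈ P, b.1 = z)) :
    Hp k s (Function.update g z v) F P = Hp k s g F P := by
  unfold Hp
  refine Finset.sum_congr rfl fun c _ => ?_
  refine hp_congr F P (fun y hy => ?_) (fun y hy => ?_)
  · rw [Function.update_of_ne (fun h => hz (by rw [← h]; exact hy))]
  · rw [Function.update_of_ne (fun h => hz (by rw [← h]; exact hy))]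

/-! ### the mean -/

section mean

variable {Ω : Type} [Fintype Ω]

theorem avg (i : Fin n) (f : (Fin n → Ω) → ℝ) :
    (Fintype.card Ω : ℝ) * ∑ g, f g = ∑ g, ∑ v, f (Function.update g i v) := by
  have h1 : ∑ g : Fin n → Ω, ∑ v : Ω, f (Function.update g i v) =
      ∑ p : (Fin n → Ω) × Ω, f (Function.update p.1 i p.2) := by
    rw [Fintype.sum_prod_type]
  have h2 : ∑ p : (Fin n → Ω) × Ω, f p.1 = (Fintype.card Ω : ℝ) * ∑ g, f g := by
    rw [Fintype.sum_prod_type, Finset.mul_sum]
    refine Finset.sum_congr rfl fun g _ => ?_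
    show ∑ _y : Ω, f g = _
    rw [Finset.sum_const, nsmul_eq_mul, Finset.card_univ]
  rw [h1, ← h2]
  refine Fintype.sum_equiv
    ⟨fun p => (Function.update p.1 i p.2, p.1 i), fun p => (Function.update p.1 i p.2, p.1 i),
      fun p => ?_, fun p => ?_⟩ _ _ (fun p => ?_)
  · ext1
    · simp
    · simp
  · ext1
    · simp
    · simp
  · simp

theorem split (x : Fin n) (a : Ω → ℝ) (h : (Fin n → Ω) → ℝ)
    (hh : ∀ g v, h (Function.update g x v) = h g) :
    (Fintype.card Ω : ℝ) * ∑ g, a (g x) * h g = (∑ v, a v) * ∑ g, h g := by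
  rw [avg x]
  simp only [Function.update_self, hh]
  rw [Finset.mul_sum]
  refine Finset.sum_congr rfl fun g _ => ?_
  rw [Finset.sum_mul]

end mean

theorem count_cell (W k q : ℕ) (hk : 1 ≤ k) (hq : (q + 1) * k ≤ W) :
    ∑ v : Fin W, (if (v : ℕ) / k = q then (1 : ℝ) else 0) = k := by
  rw [Fin.sum_univ_eq_sum_range (fun v => if v / k = q then (1 : ℝ) else 0) W, ← Finset.sum_filter,
    Finset.sum_const, nsmul_eq_mul, mul_one]
  have h1 : (range W).filter (fun v => v / k = q) = Ico (q * k) ((q + 1) * k) := by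
    ext v
    rw [Finset.mem_filter, Finset.mem_range, Finset.mem_Ico]
    constructor
    · rintro ⟨-, h⟩
      subst h
      exact ⟨Nat.div_mul_le_self v k, by
        have h3 := Nat.lt_div_mul_add (a := v) (b := k) (by omega)
        rw [Nat.add_mul, one_mul]; exact h3⟩
    · rintro ⟨h2, h3⟩
      refine ⟨by omega, ?_⟩
      refine Nat.le_antisymm ?_ ?_
      · exact Nat.lt_succ_iff.1 ((Nat.div_lt_iff_lt_mul (by omega)).2 h3)
      · exact (Nat.le_div_iff_mul_le (by omega)).2 h2
  rw [h1, Nat.card_Ico]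
  congr 1
  rw [Nat.add_mul, one_mul]; omega

/-- the indicator of a hit is at least an alternating sum -/
theorem hb_ge (k c : ℕ) (g : Fin n → ℕ) (x : Fin n) (F : Finset (Fin n)) :
    (if g x / k = 2 * c + 1 then (1 : ℝ) else 0) * ∑ y ∈ F, (if g y / k = 2 * c then (1 : ℝ) else 0) *
      (1 - ∑ z ∈ F.erase y, (if g z / k / 2 = c then (1 : ℝ) else 0)) ≤ hb k c g x F := by
  by_cases h1 : g x / k = 2 * c + 1
  · rw [if_pos h1, one_mul]
    by_cases h2 : HB k c g x F
    · obtain ⟨-, y0, hy0, hy1, hy2⟩ := id h2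
      have h3 : (hb k c g x F : ℝ) = 1 := by rw [hb, if_pos h2]; norm_num
      rw [h3, Finset.sum_eq_single y0]
      · rw [if_pos hy1, one_mul]
        have : 0 ≤ ∑ z ∈ F.erase y0, (if g z / k / 2 = c then (1 : ℝ) else 0) :=
          Finset.sum_nonneg fun z _ => by split_ifs <;> norm_num
        linarith
      · intro y hy hne
        rw [if_neg, zero_mul]
        intro h4
        exact hne (hy2 y hy (by omega))
      · intro h4; exact absurd hy0 h4
    · have h3 : (0 : ℝ) ≤ (hb k c g x F : ℝ) := Nat.cast_nonneg _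
      refine le_trans (Finset.sum_nonpos fun y hy => ?_) h3
      by_cases h4 : g y / k = 2 * c
      · rw [if_pos h4, one_mul]
        have h5 : ∃ z ∈ F, g z / k / 2 = c ∧ z ≠ y := by
          by_contra hcon
          push Not at hcon
          exact h2 ⟨h1, y, hy, h4, hcon⟩
        obtain ⟨z, hz, hz1, hz2⟩ := h5
        have h6 : (1 : ℝ) ≤ ∑ z ∈ F.erase y, (if g z / k / 2 = c then (1 : ℝ) else 0) := by
          have h7 := Finset.single_le_sum
            (f := fun z => if g z / k / 2 = c then (1 : ℝ) else 0)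
            (fun w _ => by split_ifs <;> norm_num) (Finset.mem_erase.2 ⟨hz2, hz⟩)
          rwa [if_pos hz1] at h7
        linarith
      · rw [if_neg h4, zero_mul]
  · rw [if_neg h1, zero_mul]
    exact Nat.cast_nonneg _

/-- the mean number of hits at one exchange -/
theorem mean_hit (s k W : ℕ) (hs : 1 ≤ s) (hk : 1 ≤ k) (hW : W = 4 * s * k) (x : Fin n)
    (F : Finset (Fin n)) (hx : x ∉ F) (hF : F.card = s) :
    (W : ℝ) ^ n ≤ 16 * ∑ g : Fin n → Fin W, ∑ c ∈ range (2 * s),
      (hb k c (fun z => (g z : ℕ)) x F : ℝ) := by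
  have hWp : 0 < W := by rw [hW]; positivity
  have hWr : (0 : ℝ) < (W : ℝ) := by exact_mod_cast hWp
  haveI : NeZero W := ⟨by omega⟩
  have hkr : (0 : ℝ) < (k : ℝ) := by exact_mod_cast hk
  have hsr : (1 : ℝ) ≤ (s : ℝ) := by exact_mod_cast hs
  have hcW : (Fintype.card (Fin W) : ℝ) = W := by rw [Fintype.card_fin]
  have hone : ∑ _g : Fin n → Fin W, (1 : ℝ) = (W : ℝ) ^ n := by
    rw [Finset.sum_const, nsmul_eq_mul, mul_one, Finset.card_univ, Fintype.card_fun,
      Fintype.card_fin, Fintype.card_fin]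
    push_cast; rfl
  have key : ∀ c ∈ range (2 * s), (W : ℝ) ^ n * (1 / (32 * s)) ≤
      ∑ g : Fin n → Fin W, (hb k c (fun z => (g z : ℕ)) x F : ℝ) := by
    intro c hc
    rw [Finset.mem_range] at hc
    set a : Fin W → ℝ := fun v => if (v : ℕ) / k = 2 * c + 1 then (1 : ℝ) else 0 with ha
    set b : Fin W → ℝ := fun v => if (v : ℕ) / k = 2 * c then (1 : ℝ) else 0 with hb'
    set d : Fin W → ℝ := fun v => if (v : ℕ) / k / 2 = c then (1 : ℝ) else 0 with hd
    have sa : ∑ v, a v = k := count_cell W k (2 * c + 1) hk (by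
      rw [hW]; exact Nat.mul_le_mul_right k (by omega))
    have sb : ∑ v, b v = k := count_cell W k (2 * c) hk (by
      rw [hW]; exact Nat.mul_le_mul_right k (by omega))
    have sd : ∑ v, d v = 2 * k := by
      have h1 := count_cell W (k * 2) c (by omega) (by
        rw [hW]; nlinarith)
      simp only [← Nat.div_div_eq_div_mul] at h1
      rw [hd, h1]; push_cast; ring
    have s1 : ∀ y, (W : ℝ) * ∑ g : Fin n → Fin W, b (g y) = k * (W : ℝ) ^ n := by
      intro y
      have h1 := split (Ω := Fin W) y b (fun _ => 1) (fun _ _ => rfl)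
      simp only [mul_one] at h1
      rw [hcW, hone, sb] at h1
      exact h1
    have s1' : ∀ y, (W : ℝ) * ∑ g : Fin n → Fin W, d (g y) = 2 * k * (W : ℝ) ^ n := by
      intro y
      have h1 := split (Ω := Fin W) y d (fun _ => 1) (fun _ _ => rfl)
      simp only [mul_one] at h1
      rw [hcW, hone, sd] at h1
      exact h1
    have s2 : ∀ y ∈ F, ∑ g : Fin n → Fin W, a (g x) * b (g y) = k ^ 2 * (W : ℝ) ^ n / W ^ 2 := by
      intro y hy
      have hne : x ≠ y := fun h => hx (h ▸ hy)
      have h1 := split (Ω := Fin W) x a (fun g => b (g y)) (fun g v => by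
        rw [Function.update_of_ne hne.symm])
      rw [hcW, sa] at h1
      rw [eq_div_iff (by positivity)]
      have h2 := s1 y
      calc (∑ g : Fin n → Fin W, a (g x) * b (g y)) * (W : ℝ) ^ 2
          = W * (W * ∑ g : Fin n → Fin W, a (g x) * b (g y)) := by ring
        _ = W * (k * ∑ g : Fin n → Fin W, b (g y)) := by rw [h1]
        _ = k * (W * ∑ g : Fin n → Fin W, b (g y)) := by ring
        _ = k ^ 2 * (W : ℝ) ^ n := by rw [h2]; ring
    have s3 : ∀ y ∈ F, ∀ z ∈ F.erase y, ∑ g : Fin n → Fin W, a (g x) * (b (g y) * d (g z)) =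
        2 * k ^ 3 * (W : ℝ) ^ n / W ^ 3 := by
      intro y hy z hz
      rw [Finset.mem_erase] at hz
      have hne : x ≠ y := fun h => hx (h ▸ hy)
      have hne2 : x ≠ z := fun h => hx (h ▸ hz.2)
      have h1 := split (Ω := Fin W) x a (fun g => b (g y) * d (g z)) (fun g v => by
        rw [Function.update_of_ne hne.symm, Function.update_of_ne hne2.symm])
      have h2 := split (Ω := Fin W) y b (fun g => d (g z)) (fun g v => by
        rw [Function.update_of_ne hz.1])
      rw [hcW, sa] at h1
      rw [hcW, sb] at h2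
      rw [eq_div_iff (by positivity)]
      have h3 := s1' z
      calc (∑ g : Fin n → Fin W, a (g x) * (b (g y) * d (g z))) * (W : ℝ) ^ 3
          = W * (W * (W * ∑ g : Fin n → Fin W, a (g x) * (b (g y) * d (g z)))) := by ring
        _ = W * (W * (k * ∑ g : Fin n → Fin W, b (g y) * d (g z))) := by rw [h1]
        _ = W * k * (W * ∑ g : Fin n → Fin W, b (g y) * d (g z)) := by ring
        _ = W * k * (k * ∑ g : Fin n → Fin W, d (g z)) := by rw [h2]
        _ = k * k * (W * ∑ g : Fin n → Fin W, d (g z)) := by ring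
        _ = 2 * k ^ 3 * (W : ℝ) ^ n := by rw [h3]; ring
    have hexp : ∀ g : Fin n → Fin W, ∑ y ∈ F, (a (g x) * b (g y) -
        ∑ z ∈ F.erase y, a (g x) * (b (g y) * d (g z))) ≤ (hb k c (fun z => (g z : ℕ)) x F : ℝ) := by
      intro g
      refine le_trans (le_of_eq ?_) (hb_ge k c (fun z => (g z : ℕ)) x F)
      show _ = a (g x) * ∑ y ∈ F, b (g y) * (1 - ∑ z ∈ F.erase y, d (g z))
      rw [Finset.mul_sum]
      refine Finset.sum_congr rfl fun y _ => ?_
      rw [mul_sub, mul_one, mul_sub, Finset.mul_sum, Finset.mul_sum]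
    refine le_trans ?_ (Finset.sum_le_sum fun g _ => hexp g)
    rw [Finset.sum_comm]
    have h5 : ∀ y ∈ F, ∑ g : Fin n → Fin W, (a (g x) * b (g y) -
        ∑ z ∈ F.erase y, a (g x) * (b (g y) * d (g z))) =
        k ^ 2 * (W : ℝ) ^ n / W ^ 2 - (s - 1) * (2 * k ^ 3 * (W : ℝ) ^ n / W ^ 3) := by
      intro y hy
      rw [Finset.sum_sub_distrib, s2 y hy, Finset.sum_comm, Finset.sum_congr rfl (s3 y hy),
        Finset.sum_const, nsmul_eq_mul, Finset.card_erase_of_mem hy, hF, Nat.cast_sub hs]
      norm_num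
    rw [Finset.sum_congr rfl h5, Finset.sum_const, nsmul_eq_mul, hF]
    have hWk : (W : ℝ) = 4 * s * k := by rw [hW]; push_cast; ring
    have hWn : 0 < (W : ℝ) ^ n := by positivity
    have e1 : (s : ℝ) * (k ^ 2 * (W : ℝ) ^ n / W ^ 2 - (s - 1) * (2 * k ^ 3 * (W : ℝ) ^ n / W ^ 3)) =
        (W : ℝ) ^ n * (1 / (16 * s) - (s - 1) / (32 * s ^ 2)) := by
      generalize (W : ℝ) ^ n = w
      rw [hWk]
      field_simp
      ring
    rw [e1]
    refine mul_le_mul_of_nonneg_left ?_ hWn.le
    have e2 : (1 : ℝ) / (16 * s) - (s - 1) / (32 * s ^ 2) - 1 / (32 * s) = 1 / (32 * s ^ 2) := by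
      field_simp
      ring
    have e3 : (0 : ℝ) ≤ 1 / (32 * s ^ 2) := by positivity
    linarith
  have h6 := Finset.sum_le_sum key
  rw [Finset.sum_const, nsmul_eq_mul, Finset.card_range] at h6
  rw [Finset.sum_comm]
  have h7 : (((2 * s : ℕ)) : ℝ) * ((W : ℝ) ^ n * (1 / (32 * s))) = (W : ℝ) ^ n / 16 := by
    push_cast
    field_simp
    ring
  rw [h7] at h6
  linarith

/-- the mean number of hits of a pattern -/
theorem mean_pat (s k W : ℕ) (hs : 1 ≤ s) (hk : 1 ≤ k) (hW : W = 4 * s * k)
    (F : Finset (Fin n)) : ∀ P : List (Fin n × Fin n), Vp s F P →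
    (P.length : ℝ) * (W : ℝ) ^ n ≤ 16 * ∑ g : Fin n → Fin W,
      (Hp k s (fun z => (g z : ℕ)) F P : ℝ) := by
  intro P
  induction P with
  | nil => intro _; simp [Hp, hp]
  | cons a P ih =>
    intro hV
    obtain ⟨h1, h2, h3, -⟩ := hV
    have h4 := ih h1
    have h5 := mean_hit s k W hs hk hW a.1 (stt F P) h3 h2
    have h6 : ∀ g : Fin n → Fin W, (Hp k s (fun z => (g z : ℕ)) F (a :: P) : ℝ) =
        ∑ c ∈ range (2 * s), (hb k c (fun z => (g z : ℕ)) a.1 (stt F P) : ℝ) +
          (Hp k s (fun z => (g z : ℕ)) F P : ℝ) := by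
      intro g
      simp only [Hp, hp, Finset.sum_add_distrib]
      push_cast
      rfl
    simp only [h6, Finset.sum_add_distrib]
    rw [List.length_cons]
    push_cast
    linarith

theorem Vp_card {s : ℕ} {F : Finset (Fin n)} : ∀ {P : List (Fin n × Fin n)}, Vp s F P →
    F.card = s := by
  intro P
  induction P with
  | nil => exact fun h => h
  | cons a P ih => exact fun h => ih h.1

open Classical in
/-- **Few labellings have few hits of a given pattern.** -/
theorem few_hits (m k W : ℕ) (hm : 1 ≤ m) (hk : 1 ≤ k) (hW : W = 4 * (8 * m) * k)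
    (F : Finset (Fin n)) (P : List (Fin n × Fin n)) (hV : Vp (8 * m) F P) (hP : P.length = m) :
    ((Finset.univ.filter fun g : Fin n → Fin W =>
      32 * Hp k (8 * m) (fun z => (g z : ℕ)) F P < m).card : ℝ) ≤
      (W : ℝ) ^ n * Real.exp (-(m / 147456)) := by
  have hWp : 0 < W := by rw [hW]; positivity
  haveI : NeZero W := ⟨by omega⟩
  set A : Finset (Fin n) := F ∪ (P.map Prod.fst).toFinset with hA
  set c : Fin n → ℝ := fun z => if z ∈ A then 2 else 0 with hc
  have hAc : (A.card : ℝ) ≤ 9 * m := by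
    have h1 : A.card ≤ 8 * m + m := by
      refine (Finset.card_union_le _ _).trans (Nat.add_le_add (Vp_card hV).le ?_)
      refine (List.toFinset_card_le _).trans ?_
      rw [List.length_map, hP]
    have : (A.card : ℝ) ≤ ((8 * m + m : ℕ) : ℝ) := by exact_mod_cast h1
    push_cast at this
    linarith
  have h1 := chernoff (Ω := Fin W) (1 / 2304) (by norm_num) n
    (fun g => (Hp k (8 * m) (fun z => (g z : ℕ)) F P : ℝ)) c
    (fun i => by simp only [hc]; split_ifs <;> norm_num)
    (fun g z v => by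
      have e1 : (fun y => ((Function.update g z v y : Fin W) : ℕ)) =
          Function.update (fun y => (g y : ℕ)) z (v : ℕ) := by
        funext y
        by_cases hy : y = z
        · subst hy; simp
        · simp [hy]
      rw [e1]
      by_cases hz : z ∈ A
      · simp only [hc, if_pos hz]
        exact Hp_lip hV _ z v
      · simp only [hc, if_neg hz]
        rw [Hp_indep]
        · simp
        · rintro (h | ⟨b, h2, h3⟩)
          · exact hz (Finset.mem_union_left _ h)
          · refine hz (Finset.mem_union_right _ ?_)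
            rw [List.mem_toFinset, List.mem_map]
            exact ⟨b, h2, h3⟩)
    (m / 32) (m / 16) (36 * m)
    (by
      have h2 := mean_pat (8 * m) k W (by omega) hk hW F P hV
      rw [hP] at h2
      rw [Fintype.card_fin]
      linarith)
    (by
      have e2 : ∀ i, c i ^ 2 = if i ∈ A then (4 : ℝ) else 0 := by
        intro i; simp only [hc]; split_ifs <;> norm_num
      simp only [e2]
      rw [Finset.sum_ite_mem, Finset.univ_inter, Finset.sum_const, nsmul_eq_mul]
      linarith)
  rw [Fintype.card_fin] at h1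
  have h3 : (Finset.univ.filter fun g : Fin n → Fin W =>
      32 * Hp k (8 * m) (fun z => (g z : ℕ)) F P < m) =
      (Finset.univ.filter fun g : Fin n → Fin W =>
        (Hp k (8 * m) (fun z => (g z : ℕ)) F P : ℝ) < (m : ℝ) / 32) := by
    ext g
    simp only [Finset.mem_filter, Finset.mem_univ, true_and]
    rw [lt_div_iff₀ (by norm_num)]
    constructor
    · intro h
      have : ((32 * Hp k (8 * m) (fun z => (g z : ℕ)) F P : ℕ) : ℝ) < (m : ℝ) := by exact_mod_cast h
      push_cast at this
      linarith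
    · intro h
      have : ((32 * Hp k (8 * m) (fun z => (g z : ℕ)) F P : ℕ) : ℝ) < (m : ℝ) := by
        push_cast
        linarith
      exact_mod_cast this
  rw [h3]
  refine h1.trans (le_of_eq ?_)
  congr 2
  ring

end Pool.Agent.U325.FO
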