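import Pool.Agent.U325.FO.Hit

set_option autoImplicit false

/-!
# Few orders for splay trees: least recently used lists and blocks

`L` is the list of all keys, the most recently requested first. A request of `x` is a miss of level `s`
if `x` is not among the first `s` keys of the list.
-/

namespace Pool.Agent.U325.FO

open Finset

variable {n : ℕ}

/-- number of misses of level `s` -/
def Um (s : ℕ) : List (Fin n) → List (Fin n) → ℕ
  | _, [] => 0
  | L, x :: X => (if x ∈ L.take s then 0 else 1) + Um s (x :: L.erase x) X

/-- number of hits in the bin `c` -/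
noncomputable def hx (k c s : ℕ) (g : Fin n → ℕ) : List (Fin n) → List (Fin n) → ℕ
  | _, [] => 0
  | L, x :: X => hb k c g x (L.take s).toFinset + hx k c s g (x :: L.erase x) X

/-- number of hits of level `s` -/
noncomputable def Hx (k s : ℕ) (g : Fin n → ℕ) (L X : List (Fin n)) : ℕ :=
  ∑ c ∈ range (2 * s), hx k c s g L X

theorem Um_le (s : ℕ) : ∀ (X L : List (Fin n)), Um s L X ≤ X.length := by
  intro X
  induction X with
  | nil => intro L; simp [Um]
  | cons x X ih =>
    intro L
    have := ih (x :: L.erase x)
    simp only [Um, List.length_cons]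
    split_ifs <;> omega

theorem erase_take {x : Fin n} : ∀ (L : List (Fin n)) (t : ℕ), x ∉ L.take t →
    (L.erase x).take t = L.take t := by
  intro L
  induction L with
  | nil => intro t _; simp
  | cons a L ih =>
    intro t ht
    cases t with
    | zero => simp
    | succ t =>
      rw [List.take_succ_cons, List.mem_cons, not_or] at ht
      rw [List.erase_cons_tail (by simpa using Ne.symm ht.1), List.take_succ_cons,
        List.take_succ_cons, ih t ht.2]

theorem take_mem {x : Fin n} : ∀ (L : List (Fin n)) (t : ℕ), L.Nodup → x ∈ L.take t → ∀ y,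
    (y ∈ (x :: L.erase x).take t ↔ y ∈ L.take t) := by
  intro L
  induction L with
  | nil => intro t _ h; simp at h
  | cons a L ih =>
    intro t hn ht y
    cases t with
    | zero => simp at ht
    | succ t =>
      rw [List.nodup_cons] at hn
      rw [List.take_succ_cons, List.take_succ_cons, List.mem_cons, List.mem_cons]
      by_cases hax : a = x
      · subst hax
        rw [List.erase_cons_head]
      · rw [List.erase_cons_tail (by simpa using hax)]
        rw [List.take_succ_cons, List.mem_cons] at ht
        rcases ht with ht | ht
        · exact absurd ht.symm hax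
        · cases t with
          | zero => simp at ht
          | succ t =>
            have h1 := ih (t + 1) hn.2 ht y
            rw [List.take_succ_cons, List.mem_cons] at h1
            rw [List.take_succ_cons, List.mem_cons]
            constructor
            · rintro (h | h | h)
              · exact Or.inr (h1.1 (Or.inl h))
              · exact Or.inl h
              · exact Or.inr (h1.1 (Or.inr h))
            · rintro (h | h)
              · exact Or.inr (Or.inl h)
              · rcases h1.2 h with h | h
                · exact Or.inl h
                · exact Or.inr (Or.inr h)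

/-- all keys, each once -/
def Full (L : List (Fin n)) : Prop := L.Nodup ∧ ∀ x, x ∈ L

theorem Full.next {L : List (Fin n)} (h : Full L) (x : Fin n) : Full (x :: L.erase x) := by
  refine ⟨?_, fun y => ?_⟩
  · rw [List.nodup_cons]
    exact ⟨h.1.not_mem_erase, h.1.erase x⟩
  · by_cases hy : y = x
    · subst hy; simp
    · rw [List.mem_cons]
      exact Or.inr ((List.mem_erase_of_ne hy).2 (h.2 y))

theorem Full.len {L : List (Fin n)} (h : Full L) : L.length = n := by
  rw [← List.toFinset_card_of_nodup h.1]
  have : L.toFinset = Finset.univ := by
    ext x; simp [h.2 x]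
  rw [this, Finset.card_univ, Fintype.card_fin]

theorem take_card {L : List (Fin n)} (h : Full L) {s : ℕ} (hs : s ≤ n) :
    (L.take s).toFinset.card = s := by
  rw [List.toFinset_card_of_nodup (h.1.sublist (List.take_sublist _ _)), List.length_take, h.len]
  omega

theorem take_hit {L : List (Fin n)} (h : Full L) {x : Fin n} {s : ℕ} (hx : x ∈ L.take s) :
    ((x :: L.erase x).take s).toFinset = (L.take s).toFinset := by
  ext y
  rw [List.mem_toFinset, List.mem_toFinset, take_mem L s h.1 hx]

theorem take_miss {L : List (Fin n)} (h : Full L) {x : Fin n} {s : ℕ} (h1 : 1 ≤ s) (hs : s ≤ n)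
    (hx : x ∉ L.take s) : ∃ e : Fin n,
    ((x :: L.erase x).take s).toFinset = insert x ((L.take s).toFinset.erase e) ∧
      ∀ y, y ∈ L.take (s - 1) → y ≠ e := by
  obtain ⟨t, rfl⟩ : ∃ t, s = t + 1 := ⟨s - 1, by omega⟩
  have hl : t < L.length := by rw [h.len]; omega
  have h2 : L.take (t + 1) = L.take t ++ [L[t]] := by
    rw [List.take_succ_eq_append_getElem hl]
  have h3 : (L.take (t + 1)).Nodup := h.1.sublist (List.take_sublist _ _)
  rw [h2, List.nodup_append] at h3
  have h4 : L[t] ∉ L.take t := fun h5 => h3.2.2 _ h5 _ (by simp) rfl
  have h5 : x ∉ L.take t := by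
    intro h6
    apply hx
    rw [h2]
    exact List.mem_append_left _ h6
  refine ⟨L[t], ?_, ?_⟩
  · rw [List.take_succ_cons, erase_take L t h5, h2, List.toFinset_cons, List.toFinset_append]
    congr 1
    ext y
    simp only [Finset.mem_erase, Finset.mem_union, List.mem_toFinset, List.mem_singleton]
    constructor
    · intro h6
      exact ⟨fun h7 => h4 (h7 ▸ h6), Or.inl h6⟩
    · rintro ⟨h6, h7 | h7⟩
      · exact h7
      · exact absurd h7 h6
  · intro y hy h6
    rw [Nat.add_sub_cancel] at hy
    exact h4 (h6 ▸ hy)

theorem mem_next {L : List (Fin n)} (h : Full L) {x y : Fin n} {t : ℕ} (hy : y ∈ L.take t) :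
    y ∈ (x :: L.erase x).take (t + 1) := by
  by_cases hx : x ∈ L.take t
  · have h1 := (take_mem L t h.1 hx y).2 hy
    exact List.mem_of_mem_take (i := t) (by
      rw [List.take_take]
      rwa [min_eq_left (by omega)])
  · rw [List.take_succ_cons, erase_take L t hx]
    exact List.mem_cons_of_mem _ hy

theorem mem_take_mono {L : List (Fin n)} {y : Fin n} {a b : ℕ} (hab : a ≤ b) (hy : y ∈ L.take a) :
    y ∈ L.take b := by
  rw [← List.take_append_drop a (L.take b)]
  refine List.mem_append_left _ ?_
  rw [List.take_take, min_eq_left hab]
  exact hy

theorem Hx_cons (k s : ℕ) (g : Fin n → ℕ) (L X : List (Fin n)) (x : Fin n) :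
    Hx k s g L (x :: X) = ∑ c ∈ range (2 * s), hb k c g x (L.take s).toFinset +
      Hx k s g (x :: L.erase x) X := by
  simp only [Hx, hx, Finset.sum_add_distrib]

theorem Hp_cons (k s : ℕ) (g : Fin n → ℕ) (F : Finset (Fin n)) (a : Fin n × Fin n)
    (P : List (Fin n × Fin n)) :
    Hp k s g F (a :: P) = ∑ c ∈ range (2 * s), hb k c g a.1 (stt F P) + Hp k s g F P := by
  simp only [Hp, hp, Finset.sum_add_distrib]

open Classical in
/-- the family property at the level `8 m`: every pattern with `m` exchanges has at least `m / 32`
hits for all but `N / d` of the labellings -/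
def Fam (N d m k : ℕ) (g : Fin N → Fin n → ℕ) : Prop :=
  ∀ (F : Finset (Fin n)) (P : List (Fin n × Fin n)), Vp (8 * m) F P → P.length = m →
    d * (Finset.univ.filter fun i => 32 * Hp k (8 * m) (g i) F P < m).card ≤ N

/-- the block decomposition -/
theorem level_aux {N d m k : ℕ} {g : Fin N → Fin n → ℕ} (hF : Fam N d m k g) (hm : 1 ≤ m)
    (hn : 8 * m ≤ n) : ∀ (X L : List (Fin n)) (F : Finset (Fin n)) (P : List (Fin n × Fin n))
      (q t : ℕ), Full L → Vp (8 * m) F P → stt F P = (L.take (8 * m)).toFinset → P.length < m →
      q < 4 * m → t ≤ 4 * m + q → (∀ b ∈ P, b.1 ∈ L.take t) →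
      ∃ B : Fin N → ℕ, (∀ i, 4 * (P.length + Um (8 * m) L X) ≤ q + Um (4 * m) L X + 4 * m +
        128 * (Hp k (8 * m) (g i) F P + Hx k (8 * m) (g i) L X) + 4 * B i) ∧
        d * ∑ i, B i ≤ N * (P.length + Um (8 * m) L X) := by
  classical
  intro X
  induction X with
  | nil =>
    intro L F P q t _ _ _ hP _ _ _
    refine ⟨fun _ => 0, fun i => ?_, by simp⟩
    simp only [Um]
    omega
  | cons x X ih =>
    intro L F P q t hL hV hst hP hq ht hmem
    have hL' := hL.next x
    have hnew : ∀ L' : List (Fin n), Full L' → Vp (8 * m) (L'.take (8 * m)).toFinset [] :=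
      fun L' hL' => take_card hL' hn
    by_cases h8 : x ∈ L.take (8 * m)
    · -- no miss of level 8 m
      have hst' : stt F P = ((x :: L.erase x).take (8 * m)).toFinset := by
        rw [hst, take_hit hL h8]
      have hHx : ∀ i, Hx k (8 * m) (g i) (x :: L.erase x) X ≤ Hx k (8 * m) (g i) L (x :: X) := by
        intro i
        rw [Hx_cons]
        exact Nat.le_add_left _ _
      by_cases h4 : x ∈ L.take (4 * m)
      · obtain ⟨B, hB1, hB2⟩ := ih (x :: L.erase x) F P q (if x ∈ L.take t then t else t + 1) hL' hV
          hst' hP hq (by
            split_ifs with hxt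
            · exact ht
            · by_contra hcon
              exact hxt (mem_take_mono (by omega) h4)) (fun b hb => by
            split_ifs with hxt
            · exact (take_mem L t hL.1 hxt _).2 (hmem b hb)
            · exact mem_next hL (hmem b hb))
        refine ⟨B, fun i => ?_, ?_⟩
        · have h1 := hB1 i
          have h2 := hHx i
          simp only [Um, if_pos h8, if_pos h4, zero_add]
          omega
        · simpa only [Um, if_pos h8, zero_add] using hB2
      · -- a miss of level 4 m
        by_cases hq' : q + 1 < 4 * m
        · obtain ⟨B, hB1, hB2⟩ := ih (x :: L.erase x) F P (q + 1) (t + 1) hL' hV hst' hP hq'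
            (by omega) (fun b hb => mem_next hL (hmem b hb))
          refine ⟨B, fun i => ?_, ?_⟩
          · have h1 := hB1 i
            have h2 := hHx i
            simp only [Um, if_pos h8, if_neg h4, zero_add]
            omega
          · simpa only [Um, if_pos h8, zero_add] using hB2
        · obtain ⟨B, hB1, hB2⟩ := ih (x :: L.erase x) _ [] 0 0 hL' (hnew _ hL') rfl
            (by simp only [List.length_nil]; omega) (by omega) (by omega) (fun b hb => by simp at hb)
          refine ⟨B, fun i => ?_, ?_⟩
          · have h1 := hB1 i
            have h2 := hHx i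
            simp only [Um, if_pos h8, if_neg h4, zero_add]
            simp only [List.length_nil, Hp, hp, Finset.sum_const_zero, zero_add] at h1
            omega
          · simp only [List.length_nil, zero_add] at hB2
            simp only [Um, if_pos h8, zero_add]
            exact hB2.trans (Nat.mul_le_mul_left _ (by omega))
    · -- a miss of both levels
      have h4 : x ∉ L.take (4 * m) := fun h => h8 (mem_take_mono (by omega) h)
      obtain ⟨e, he1, he2⟩ := take_miss hL (by omega) hn h8
      have hV' : Vp (8 * m) F ((x, e) :: P) := by
        refine ⟨hV, ?_, ?_, ?_⟩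
        · rw [hst]; exact take_card hL hn
        · rw [hst, List.mem_toFinset]; exact h8
        · intro b hb
          rw [hst, List.mem_toFinset]
          exact mem_take_mono (by omega) (hmem b hb)
      have hst' : stt F ((x, e) :: P) = ((x :: L.erase x).take (8 * m)).toFinset := by
        rw [stt, hst, he1]
      have hH : ∀ i, Hp k (8 * m) (g i) F P + Hx k (8 * m) (g i) L (x :: X) =
          Hp k (8 * m) (g i) F ((x, e) :: P) + Hx k (8 * m) (g i) (x :: L.erase x) X := by
        intro i
        rw [Hx_cons, Hp_cons, hst]
        dsimp only
        omega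
      have hU8 : Um (8 * m) L (x :: X) = 1 + Um (8 * m) (x :: L.erase x) X := by
        simp only [Um, if_neg h8]
      have hU4 : Um (4 * m) L (x :: X) = 1 + Um (4 * m) (x :: L.erase x) X := by
        simp only [Um, if_neg h4]
      have hlen : ((x, e) :: P).length = P.length + 1 := List.length_cons
      by_cases hk : P.length + 1 < m
      · by_cases hq' : q + 1 < 4 * m
        · obtain ⟨B, hB1, hB2⟩ := ih (x :: L.erase x) F ((x, e) :: P) (q + 1) (t + 1) hL' hV' hst'
            (by rw [hlen]; exact hk) hq' (by omega) (fun b hb => by
              rw [List.mem_cons] at hb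
              rcases hb with hb | hb
              · rw [hb, List.take_succ_cons]; simp
              · exact mem_next hL (hmem b hb))
          refine ⟨B, fun i => ?_, ?_⟩
          · have h1 := hB1 i
            have h2 := hH i
            rw [hlen] at h1
            rw [hU8, hU4, h2]
            omega
          · rw [hlen] at hB2
            rw [hU8]
            refine hB2.trans (Nat.mul_le_mul_left _ (by omega))
        · obtain ⟨B, hB1, hB2⟩ := ih (x :: L.erase x) _ [] 0 0 hL' (hnew _ hL') rfl
            (by simp only [List.length_nil]; omega) (by omega) (by omega) (fun b hb => by simp at hb)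
          refine ⟨B, fun i => ?_, ?_⟩
          · have h1 := hB1 i
            have h2 := hH i
            simp only [List.length_nil, Hp, hp, Finset.sum_const_zero, zero_add] at h1
            rw [hU8, hU4, h2]
            omega
          · simp only [List.length_nil, zero_add] at hB2
            rw [hU8]
            exact hB2.trans (Nat.mul_le_mul_left _ (by omega))
      · -- a rich block
        have hk' : ((x, e) :: P).length = m := by rw [hlen]; omega
        obtain ⟨B, hB1, hB2⟩ := ih (x :: L.erase x) _ [] 0 0 hL' (hnew _ hL') rfl
          (by simp only [List.length_nil]; omega) (by omega) (by omega) (fun b hb => by simp at hb)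
        have hbad := hF F ((x, e) :: P) hV' hk'
        refine ⟨fun i => B i + if 32 * Hp k (8 * m) (g i) F ((x, e) :: P) < m then m else 0,
          fun i => ?_, ?_⟩
        · have h1 := hB1 i
          have h2 := hH i
          simp only [List.length_nil, Hp, hp, Finset.sum_const_zero, zero_add] at h1
          rw [hU8, hU4, h2]
          rw [hlen] at hk'
          dsimp only
          split_ifs with h3
          · omega
          · omega
        · rw [Finset.sum_add_distrib, ← Finset.sum_filter, Finset.sum_const, smul_eq_mul, mul_add,
            hU8, ← mul_assoc]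
          simp only [List.length_nil, zero_add] at hB2
          have h5 : P.length + (1 + Um (8 * m) (x :: L.erase x) X) =
              Um (8 * m) (x :: L.erase x) X + m := by
            rw [hlen] at hk'
            omega
          rw [h5, mul_add]
          refine Nat.add_le_add hB2 (Nat.mul_le_mul_right _ ?_)
          convert hbad

/-- **The level lemma.** -/
theorem level {N d m k : ℕ} {g : Fin N → Fin n → ℕ} (hF : Fam N d m k g) (hm : 1 ≤ m)
    (hn : 8 * m ≤ n) (X L : List (Fin n)) (hL : Full L) :
    ∃ B : Fin N → ℕ, (∀ i, 4 * Um (8 * m) L X ≤ Um (4 * m) L X + 4 * m +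
        128 * Hx k (8 * m) (g i) L X + 4 * B i) ∧
        d * ∑ i, B i ≤ N * Um (8 * m) L X := by
  obtain ⟨B, hB1, hB2⟩ := level_aux hF hm hn X L (L.take (8 * m)).toFinset [] 0 0 hL
    (take_card hL hn) rfl (by simp only [List.length_nil]; omega) (by omega) (by omega)
    (fun b hb => by simp at hb)
  refine ⟨B, fun i => ?_, ?_⟩
  · have h1 := hB1 i
    simp only [List.length_nil, Hp, hp, Finset.sum_const_zero, zero_add] at h1
    exact h1
  · simpa only [List.length_nil, zero_add] using hB2

end Pool.Agent.U325.FO
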