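import Pool.Agent.U325.FO.Asm

set_option autoImplicit false

/-!
# Few orders for splay trees: the theorem
-/

namespace Pool.Agent.U325.FO

open Finset Pool.Agent.H581R2.Splay Pool.Agent.TH49.Spl Pool.Agent.Y395.SP Pool.Agent.N724.TW

variable {n : ℕ}

theorem shift (i0 J : ℕ) (L X : List (Fin n)) :
    ∑ i ∈ Ico i0 J, Um (4 * 2 ^ i) L X ≤ X.length + ∑ i ∈ Ico i0 J, Um (8 * 2 ^ i) L X := by
  rw [Finset.sum_Ico_eq_sum_range, Finset.sum_Ico_eq_sum_range]
  obtain h | ⟨r, hr⟩ : J - i0 = 0 ∨ ∃ r, J - i0 = r + 1 := by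
    rcases Nat.eq_zero_or_pos (J - i0) with h | h
    · exact Or.inl h
    · exact Or.inr ⟨J - i0 - 1, by omega⟩
  · rw [h]; simp
  · rw [hr, Finset.sum_range_succ', add_comm]
    refine Nat.add_le_add (Um_le _ _ _) ?_
    rw [Finset.sum_range_succ]
    refine le_trans (le_of_eq ?_) (Nat.le_add_right _ _)
    refine Finset.sum_congr rfl fun j _ => ?_
    congr 1
    rw [show i0 + (j + 1) = (i0 + j) + 1 by ring, pow_succ]
    ring

theorem pow_small (hn : 2 ≤ n) : 16 * 2 ^ (Nat.log 2 n - 2) ≤ 8 * n := by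
  have h1 : 2 ^ Nat.log 2 n ≤ n := Nat.pow_log_le_self 2 (by omega)
  rcases Nat.lt_or_ge (Nat.log 2 n) 2 with h | h
  · have : Nat.log 2 n - 2 = 0 := by omega
    rw [this]; omega
  · have h2 : 2 ^ Nat.log 2 n = 4 * 2 ^ (Nat.log 2 n - 2) := by
      conv_lhs => rw [show Nat.log 2 n = 2 + (Nat.log 2 n - 2) by omega]
      rw [pow_add]; norm_num
    omega

theorem four_small (i0 : ℕ) (hn : 2 ≤ n) : ∑ i ∈ Ico i0 (Nat.log 2 n - 2), 4 * 2 ^ i ≤ n := by
  have h1 : 2 ^ Nat.log 2 n ≤ n := Nat.pow_log_le_self 2 (by omega)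
  rcases Nat.lt_or_ge (Nat.log 2 n) 2 with h | h
  · have : Nat.log 2 n - 2 = 0 := by omega
    rw [this]; simp
  · have h2 : 2 ^ Nat.log 2 n = 4 * 2 ^ (Nat.log 2 n - 2) := by
      conv_lhs => rw [show Nat.log 2 n = 2 + (Nat.log 2 n - 2) by omega]
      rw [pow_add]; norm_num
    rw [← Finset.mul_sum]
    calc 4 * ∑ i ∈ Ico i0 (Nat.log 2 n - 2), 2 ^ i ≤ 4 * ∑ i ∈ range (Nat.log 2 n - 2), 2 ^ i := by
          refine Nat.mul_le_mul_left _ (Finset.sum_le_sum_of_subset fun i hi => ?_)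
          rw [Finset.mem_Ico] at hi; rw [Finset.mem_range]; exact hi.2
      _ ≤ 4 * 2 ^ (Nat.log 2 n - 2) := by
          refine Nat.mul_le_mul_left _ ?_
          have := Nat.geomSum_eq (m := 2) (by norm_num) (Nat.log 2 n - 2)
          rw [this]
          exact (Nat.div_le_self _ _).trans (Nat.sub_le _ _)
      _ ≤ n := by omega

theorem level_le {i : ℕ} (hi : i < Nat.log 2 n - 2) : 8 * 2 ^ i ≤ n := by
  have hn : n ≠ 0 := by
    rintro rfl
    simp at hi
  have h1 : 2 ^ Nat.log 2 n ≤ n := Nat.pow_log_le_self 2 hn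
  calc 8 * 2 ^ i = 2 ^ (i + 3) := by rw [pow_add]; ring
    _ ≤ 2 ^ Nat.log 2 n := Nat.pow_le_pow_right (by norm_num) (by omega)
    _ ≤ n := h1

theorem level_half {i : ℕ} (hi : i < Nat.log 2 n - 2 - 1) : 2 * (8 * 2 ^ i) ≤ n := by
  have hn : n ≠ 0 := by
    rintro rfl
    simp at hi
  have h1 : 2 ^ Nat.log 2 n ≤ n := Nat.pow_log_le_self 2 hn
  calc 2 * (8 * 2 ^ i) = 2 ^ (i + 4) := by rw [pow_add]; ring
    _ ≤ 2 ^ Nat.log 2 n := Nat.pow_le_pow_right (by norm_num) (by omega)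
    _ ≤ n := h1

theorem full_finRange : Full (List.finRange n) :=
  ⟨List.nodup_finRange n, List.mem_finRange⟩

/-- the entropy of the first requests -/
theorem first_requests (i0 : ℕ) (hn : 2 ≤ n) (X : List (Fin n)) (hX : ∀ x, x ∈ X) :
    (n : ℝ) * Real.logb 2 n ≤ 2 * ((∑ i ∈ Ico i0 (Nat.log 2 n - 2),
      Um (8 * 2 ^ i) (List.finRange n) X : ℕ) : ℝ) + (i0 + 4) * n := by
  set J : ℕ := Nat.log 2 n - 2 with hJ
  have h1 : ∀ i ∈ Ico i0 (J - 1), n ≤ 2 * Um (8 * 2 ^ i) (List.finRange n) X := by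
    intro i hi
    rw [Finset.mem_Ico] at hi
    have h2 : 2 * (8 * 2 ^ i) ≤ n := level_half hi.2
    have h3 := miss_ge (s := 8 * 2 ^ i) (by have := Nat.one_le_two_pow (n := i); omega) (by omega)
      X (List.finRange n) full_finRange
    have h4 : X.toFinset = Finset.univ := by
      ext x; simp [hX x]
    rw [h4, Finset.card_sdiff_of_subset (Finset.subset_univ _), Finset.card_univ,
      Fintype.card_fin, take_card full_finRange (by omega)] at h3
    omega
  have h2 : (J - 1 - i0) * n ≤ 2 * ∑ i ∈ Ico i0 J, Um (8 * 2 ^ i) (List.finRange n) X := by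
    calc (J - 1 - i0) * n = ∑ i ∈ Ico i0 (J - 1), n := by
          rw [Finset.sum_const, Nat.card_Ico, smul_eq_mul]
      _ ≤ ∑ i ∈ Ico i0 (J - 1), 2 * Um (8 * 2 ^ i) (List.finRange n) X := Finset.sum_le_sum h1
      _ = 2 * ∑ i ∈ Ico i0 (J - 1), Um (8 * 2 ^ i) (List.finRange n) X := by rw [Finset.mul_sum]
      _ ≤ 2 * ∑ i ∈ Ico i0 J, Um (8 * 2 ^ i) (List.finRange n) X := by
          refine Nat.mul_le_mul_left _ (Finset.sum_le_sum_of_subset ?_)
          exact Finset.Ico_subset_Ico_right (by omega)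
  have h3 : Real.logb 2 n ≤ J + 3 := by
    have h4 : n < 2 ^ (Nat.log 2 n + 1) := Nat.lt_pow_succ_log_self (by norm_num) _
    have h5 : n < 2 ^ (J + 3) := h4.trans_le (Nat.pow_le_pow_right (by norm_num) (by omega))
    rw [Real.logb_le_iff_le_rpow (by norm_num) (by positivity)]
    have h6 : (2 : ℝ) ^ ((J : ℝ) + 3) = ((2 ^ (J + 3) : ℕ) : ℝ) := by
      rw [show (J : ℝ) + 3 = ((J + 3 : ℕ) : ℝ) by push_cast; ring, Real.rpow_natCast]
      push_cast
      rfl
    rw [h6]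
    exact_mod_cast h5.le
  have h4 : ((J : ℝ) - 1 - i0) * n ≤
      2 * ((∑ i ∈ Ico i0 J, Um (8 * 2 ^ i) (List.finRange n) X : ℕ) : ℝ) := by
    have h5 : (((J - 1 - i0) * n : ℕ) : ℝ) ≤
        ((2 * ∑ i ∈ Ico i0 J, Um (8 * 2 ^ i) (List.finRange n) X : ℕ) : ℝ) := by exact_mod_cast h2
    rw [Nat.cast_mul, Nat.cast_mul, Nat.cast_ofNat] at h5
    refine le_trans (mul_le_mul_of_nonneg_right ?_ (Nat.cast_nonneg _)) h5
    have h6 : J ≤ (J - 1 - i0) + 1 + i0 := by omega
    have h7 : (J : ℝ) ≤ (((J - 1 - i0) + 1 + i0 : ℕ) : ℝ) := by exact_mod_cast h6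
    push_cast at h7
    linarith
  have hn0 : (0 : ℝ) ≤ n := Nat.cast_nonneg _
  nlinarith [mul_le_mul_of_nonneg_left h3 hn0]

/-- the working set bound -/
theorem cost_ws (hn : 2 ≤ n) {T : Tr} (hT : keys T = List.range n) (X : List (Fin n))
    (ρ : Equiv.Perm (Fin n)) :
    (costSplay T (rel ρ X) : ℝ) ≤ 8 * X.length + 6 * wsumF [] X + 8 * (n * Real.logb 2 n) := by
  have hne : T ≠ Tr.nil := by
    rintro rfl
    have h1 : (keys Tr.nil).length = (List.range n).length := by rw [hT]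
    simp only [keys, List.length_nil, List.length_range] at h1
    omega
  have h1 := ws_holds T (rel ρ X) (bst_range hT) hne (fun x hx => by
    rw [hT, List.mem_range]; exact rel_mem ρ _ x hx)
  rw [holds_INV n ρ X, hT, List.length_range] at h1
  have h3 : (rel ρ X).length = X.length := by simp [rel]
  rw [h3] at h1
  exact h1

open Classical in
theorem main (D n : ℕ) (hD : 1 ≤ D) (hn : 2 ≤ n) :
    ∃ (N : ℕ) (σ : Fin N → Equiv.Perm (Fin n)), 1 ≤ N ∧
      (N : ℝ) ≤ 5000000 * D * Real.logb 2 n ∧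
      ∀ X : List (Fin n), D * (Finset.univ.filter fun i : Fin N =>
        ¬ ∀ (T : Tr) (ρ : Equiv.Perm (Fin n)), keys T = List.range n →
          (costSplay T (rel ρ X) : ℝ) ≤ (1700 + 6 * Real.logb 2 D) *
            optAny (List.range n) (rel (σ i) X) + 6200 * (n * Real.logb 2 n) ∧
          ((∀ x : Fin n, x ∈ X) → (costSplay T (rel ρ X) : ℝ) ≤ (28600 + 14 * Real.logb 2 D) *
            optAny (List.range n) (rel (σ i) X))).card ≤ N := by
  have hDr : (1 : ℝ) ≤ D := by exact_mod_cast hD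
  have hnr : (2 : ℝ) ≤ n := by exact_mod_cast hn
  have hlog2 : 0 < Real.log 2 := Real.log_pos (by norm_num)
  have hlogn : 0 < Real.log n := Real.log_pos (by linarith)
  have hlb : 1 ≤ Real.logb 2 n := by
    rw [Real.le_logb_iff_rpow_le (by norm_num) (by linarith), Real.rpow_one]
    exact hnr
  have hlD : 0 ≤ Real.logb 2 D := Real.logb_nonneg (by norm_num) hDr
  -- parameters
  set d : ℕ := 2 * D with hd
  set i0 : ℕ := Nat.clog 2 (294912 * d) with hi0
  set J : ℕ := Nat.log 2 n - 2 with hJ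
  set N : ℕ := ⌈3244032 * (d : ℝ) * Real.log n⌉₊ with hN
  have hi1 : 294912 * d ≤ 2 ^ i0 := Nat.le_pow_clog (by norm_num) _
  have hi2 : (i0 : ℝ) ≤ 21 + Real.logb 2 D := by
    have h1 : 2 ^ (i0 - 1) < 294912 * d := by
      have := Nat.pow_pred_clog_lt_self (b := 2) (by norm_num) (x := 294912 * d) (by omega)
      exact this
    have h2 : 2 ^ (i0 - 1) ≤ 2 ^ 20 * D := by
      have : (2 : ℕ) ^ 20 = 1048576 := by norm_num
      omega
    have h3 : ((i0 - 1 : ℕ) : ℝ) ≤ Real.logb 2 (2 ^ 20 * D) := by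
      rw [Real.le_logb_iff_rpow_le (by norm_num) (by positivity), Real.rpow_natCast]
      exact_mod_cast h2
    have h4 : Real.logb 2 (2 ^ 20 * D) = 20 + Real.logb 2 D := by
      rw [Real.logb_mul (by norm_num) (by linarith)]
      congr 1
      rw [show (2 : ℝ) ^ 20 = (2 : ℝ) ^ ((20 : ℕ) : ℝ) by rw [Real.rpow_natCast]]
      rw [Real.logb_rpow (by norm_num) (by norm_num)]
      norm_num
    rw [h4] at h3
    have h5 : i0 ≤ (i0 - 1) + 1 := by omega
    have h6 : (i0 : ℝ) ≤ (((i0 - 1) + 1 : ℕ) : ℝ) := by exact_mod_cast h5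
    push_cast at h6
    linarith
  have hJn : J < n := by
    have : Nat.log 2 n < n := Nat.log_lt_self 2 (by omega)
    omega
  obtain ⟨g, hg⟩ := exists_family n N d i0 J hn (by omega) hJn hi1 (Nat.le_ceil _)
  -- labels
  set f : Fin N → Fin n → ℕ := fun a z => (g a z : ℕ) * 2 ^ n + z with hf
  have hzn : ∀ z : Fin n, (z : ℕ) < 2 ^ n := fun z => z.2.trans Nat.lt_two_pow_self
  have hfi : ∀ a, Function.Injective (f a) := by
    intro a x y hxy
    have h1 : ((g a x : ℕ) * 2 ^ n + x) % 2 ^ n = ((g a y : ℕ) * 2 ^ n + y) % 2 ^ n := by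
      simp only [hf] at hxy; rw [hxy]
    rw [Nat.mul_add_mod', Nat.mul_add_mod', Nat.mod_eq_of_lt (hzn x), Nat.mod_eq_of_lt (hzn y)] at h1
    exact Fin.ext h1
  have hrank := fun a => rank_perm (f a) (hfi a)
  choose σ φ hφ hσ using hrank
  have hfd : ∀ (a : Fin N) (k : ℕ) (z : Fin n), (g a z : ℕ) / 2 ^ k = f a z / 2 ^ (k + n) := by
    intro a k z
    rw [show (2 : ℕ) ^ (k + n) = 2 ^ n * 2 ^ k by rw [pow_add]; ring, ← Nat.div_div_eq_div_mul]
    congr 1
    simp only [hf]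
    rw [mul_comm, Nat.mul_add_div (by positivity), Nat.div_eq_of_lt (hzn z), add_zero]
  refine ⟨N, σ, ?_, ?_, ?_⟩
  · rw [hN]
    refine Nat.ceil_pos.2 ?_
    have : (0 : ℝ) < d := by rw [hd]; push_cast; linarith
    positivity
  · have h1 : (N : ℝ) < 3244032 * (d : ℝ) * Real.log n + 1 := Nat.ceil_lt_add_one (by positivity)
    have h2 : Real.log n = Real.logb 2 n * Real.log 2 := by
      rw [Real.logb, div_mul_cancel₀ _ hlog2.ne']
    have h3 : Real.log 2 < 0.6931471808 := Real.log_two_lt_d9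
    rw [h2, hd] at h1
    push_cast at h1
    have h4 : (1 : ℝ) ≤ D * Real.logb 2 n := by nlinarith
    have h5 : 3244032 * (2 * (D : ℝ)) * (Real.logb 2 n * Real.log 2) ≤
        3244032 * 2 * 0.6931471808 * (D * Real.logb 2 n) := by
      have : 3244032 * (2 * (D : ℝ)) * (Real.logb 2 n * Real.log 2) =
        (3244032 * 2) * (D * Real.logb 2 n) * Real.log 2 := by ring
      rw [this]
      nlinarith
    nlinarith
  · intro X
    set L0 : List (Fin n) := List.finRange n with hL0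
    have hlev : ∀ i, ∃ B : Fin N → ℕ, i ∈ Ico i0 J →
        (∀ a, 4 * Um (8 * 2 ^ i) L0 X ≤ Um (4 * 2 ^ i) L0 X + 4 * 2 ^ i +
          128 * Hx (2 ^ (J - 1 - i)) (8 * 2 ^ i) (fun z => (g a z : ℕ)) L0 X + 4 * B a) ∧
          d * ∑ a, B a ≤ N * Um (8 * 2 ^ i) L0 X := by
      intro i
      by_cases hi : i ∈ Ico i0 J
      · have hi' := Finset.mem_Ico.1 hi
        obtain ⟨B, hB⟩ := level (hg i hi'.1 hi'.2) Nat.one_le_two_pow (level_le hi'.2) X L0
          full_finRange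
        exact ⟨B, fun _ => hB⟩
      · exact ⟨fun _ => 0, fun h => absurd h hi⟩
    choose B hB using hlev
    set u : ℕ := ∑ i ∈ Ico i0 J, Um (8 * 2 ^ i) L0 X with hu
    have hsum : d * ∑ a, ∑ i ∈ Ico i0 J, B i a ≤ N * u := by
      rw [Finset.sum_comm, Finset.mul_sum, hu, Finset.mul_sum]
      exact Finset.sum_le_sum fun i hi => (hB i hi).2
    have hmain : ∀ a, 3 * u ≤ X.length + n + 128 * (alt (J + 4 + n) (X.map (f a)) + 8 * n) +
        4 * ∑ i ∈ Ico i0 J, B i a := by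
      intro a
      have h1 : 4 * u ≤ ∑ i ∈ Ico i0 J, Um (4 * 2 ^ i) L0 X + ∑ i ∈ Ico i0 J, 4 * 2 ^ i +
          128 * ∑ i ∈ Ico i0 J, Hx (2 ^ (J - 1 - i)) (8 * 2 ^ i) (fun z => (g a z : ℕ)) L0 X +
          4 * ∑ i ∈ Ico i0 J, B i a := by
        rw [hu, Finset.mul_sum, Finset.mul_sum, Finset.mul_sum, ← Finset.sum_add_distrib,
          ← Finset.sum_add_distrib, ← Finset.sum_add_distrib]
        exact Finset.sum_le_sum fun i hi => (hB i hi).1 a
      have h2 := shift i0 J L0 X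
      have h3 : ∑ i ∈ Ico i0 J, 4 * 2 ^ i ≤ n := four_small i0 hn
      have h4 : ∑ i ∈ Ico i0 J, Hx (2 ^ (J - 1 - i)) (8 * 2 ^ i) (fun z => (g a z : ℕ)) L0 X =
          ∑ i ∈ Ico i0 J, Hx (2 ^ (J - 1 - i + n)) (8 * 2 ^ i) (f a) L0 X :=
        Finset.sum_congr rfl fun i _ => Hx_scale (hfd a (J - 1 - i)) _ _ _
      have h5 := levels_alt J n i0 (f a) X L0
      have h6 : 16 * 2 ^ J ≤ 8 * n := pow_small hn
      rw [h4] at h1
      rw [← hu] at h2
      omega
    -- the bad members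
    have hbad : D * (Finset.univ.filter fun a : Fin N => u < 2 * ∑ i ∈ Ico i0 J, B i a).card ≤ N := by
      set S := Finset.univ.filter fun a : Fin N => u < 2 * ∑ i ∈ Ico i0 J, B i a with hS
      have h1 : S.card * (u + 1) ≤ 2 * ∑ a, ∑ i ∈ Ico i0 J, B i a := by
        calc S.card * (u + 1) = ∑ a ∈ S, (u + 1) := by rw [Finset.sum_const, smul_eq_mul]
          _ ≤ ∑ a ∈ S, 2 * ∑ i ∈ Ico i0 J, B i a := Finset.sum_le_sum fun a ha => by
              rw [hS, Finset.mem_filter] at ha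
              exact ha.2
          _ ≤ ∑ a, 2 * ∑ i ∈ Ico i0 J, B i a :=
              Finset.sum_le_sum_of_subset (Finset.subset_univ _)
          _ = 2 * ∑ a, ∑ i ∈ Ico i0 J, B i a := by rw [Finset.mul_sum]
      have h2 : D * S.card * (u + 1) ≤ N * (u + 1) := by
        calc D * S.card * (u + 1) = D * (S.card * (u + 1)) := by ring
          _ ≤ D * (2 * ∑ a, ∑ i ∈ Ico i0 J, B i a) := Nat.mul_le_mul_left _ h1
          _ = d * ∑ a, ∑ i ∈ Ico i0 J, B i a := by rw [hd]; ring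
          _ ≤ N * u := hsum
          _ ≤ N * (u + 1) := Nat.mul_le_mul_left _ (by omega)
      exact Nat.le_of_mul_le_mul_right h2 (by omega)
    refine le_trans (Nat.mul_le_mul_left D (Finset.card_le_card ?_)) hbad
    intro a ha
    rw [Finset.mem_filter] at ha ⊢
    refine ⟨Finset.mem_univ _, ?_⟩
    by_contra hgood
    push Not at hgood
    apply ha.2
    intro T ρ hT
    set o : ℝ := (optAny (List.range n) (rel (σ a) X) : ℝ) with ho
    have h1 := hmain a
    have h2 := opt_ge hT (σ a) (φ a) (hφ a) (f a) (hσ a) X (J + 4 + n)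
    rw [← ho] at h2
    have h3 : (X.length : ℝ) ≤ o := opt_len hT (σ a) X
    have h4 : (u : ℝ) ≤ X.length + 1025 * n + 256 * o := by
      have h5 : 3 * u ≤ X.length + n + 128 * (alt (J + 4 + n) (X.map (f a)) + 8 * n) + 2 * u := by
        omega
      have h6 : ((3 * u : ℕ) : ℝ) ≤
        ((X.length + n + 128 * (alt (J + 4 + n) (X.map (f a)) + 8 * n) + 2 * u : ℕ) : ℝ) := by
        exact_mod_cast h5
      push_cast at h6
      linarith
    have h5 := cost_ws hn hT X ρ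
    have h6 := wsum_le i0 X [] L0 (fun x z hz => by simp at hz)
    rw [← hJ, ← hu] at h6
    have hi0' : (0 : ℝ) ≤ i0 := Nat.cast_nonneg _
    have hXl : (0 : ℝ) ≤ (X.length : ℝ) := Nat.cast_nonneg _
    have ho0 : 0 ≤ o := by rw [ho]; exact Nat.cast_nonneg _
    have h7 : (costSplay T (rel ρ X) : ℝ) ≤ (1568 + 6 * i0) * o + 6150 * n +
        8 * (n * Real.logb 2 n) := by
      have h8 : (32 + 6 * (i0 : ℝ)) * X.length ≤ (32 + 6 * i0) * o :=
        mul_le_mul_of_nonneg_left h3 (by positivity)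
      linarith
    refine ⟨?_, fun hX => ?_⟩
    · have h8 : (1568 + 6 * (i0 : ℝ)) * o ≤ (1700 + 6 * Real.logb 2 D) * o :=
        mul_le_mul_of_nonneg_right (by linarith) ho0
      have h9 : (n : ℝ) ≤ n * Real.logb 2 n := by nlinarith
      linarith
    · have h8 : (n : ℝ) ≤ X.length := by
        have h9 : X.toFinset = Finset.univ := by
          ext x; simp [hX x]
        have h10 : n ≤ X.length := by
          calc n = X.toFinset.card := by rw [h9, Finset.card_univ, Fintype.card_fin]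
            _ ≤ X.length := List.toFinset_card_le X
        exact_mod_cast h10
      have h9 := first_requests i0 hn X hX
      rw [← hJ, ← hL0, ← hu] at h9
      have h10 : ((i0 : ℝ) + 4) * n ≤ (i0 + 4) * o :=
        mul_le_mul_of_nonneg_left (h8.trans h3) (by positivity)
      have h11 : (28262 + 14 * (i0 : ℝ)) * o ≤ (28600 + 14 * Real.logb 2 D) * o :=
        mul_le_mul_of_nonneg_right (by linarith) ho0
      linarith

end Pool.Agent.U325.FO
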