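import Mathlib

set_option autoImplicit false

/-!
# Few orders for splay trees: concentration

A bounded difference inequality for functions on `Fin m → Ω` with the uniform distribution, and its
consequence for the number of bad coordinates of a family of independent labellings.
-/

namespace Pool.Agent.U325.FO

open Finset

/-- one coordinate -/
theorem mgf_one {Ω : Type} [Fintype Ω] [Nonempty Ω] (h : Ω → ℝ) (c lam : ℝ)
    (hc : ∀ a b, |h a - h b| ≤ c) (h0 : 0 ≤ lam) (h1 : lam * c ≤ 1) :
    ∑ ω, Real.exp (-lam * h ω) ≤ (Fintype.card Ω : ℝ) * Real.exp (lam ^ 2 * c ^ 2) *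
      Real.exp (-lam * ((∑ ω, h ω) / Fintype.card Ω)) := by
  have hw : (0 : ℝ) < Fintype.card Ω := by exact_mod_cast Fintype.card_pos
  set w : ℝ := (Fintype.card Ω : ℝ) with hwd
  set μ : ℝ := (∑ ω, h ω) / w with hμ
  have hmw : μ * w = ∑ ω, h ω := by rw [hμ]; field_simp
  have hcard : ∀ x : ℝ, ∑ _ω : Ω, x = w * x := fun x => by
    rw [Finset.sum_const, nsmul_eq_mul, Finset.card_univ]
  have hdev : ∀ a, |h a - μ| ≤ c := by
    intro a
    have e1 : (h a - μ) * w = ∑ b, (h a - h b) := by
      rw [Finset.sum_sub_distrib, hcard, sub_mul, hmw]; ring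
    have e2 : |h a - μ| * w ≤ c * w := by
      rw [← abs_of_pos hw, ← abs_mul, e1, abs_of_pos hw]
      calc |∑ b, (h a - h b)| ≤ ∑ b, |h a - h b| := Finset.abs_sum_le_sum_abs _ _
        _ ≤ ∑ _b : Ω, c := Finset.sum_le_sum fun b _ => hc a b
        _ = c * w := by rw [hcard]; ring
    exact le_of_mul_le_mul_right e2 hw
  have hone : ∀ ω, Real.exp (-lam * (h ω - μ)) ≤ 1 + (-lam * (h ω - μ)) + lam ^ 2 * c ^ 2 := by
    intro ω
    have ha : |-lam * (h ω - μ)| ≤ lam * c := by
      rw [abs_mul, abs_neg, abs_of_nonneg h0]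
      exact mul_le_mul_of_nonneg_left (hdev ω) h0
    have hb := Real.abs_exp_sub_one_sub_id_le (ha.trans h1)
    have hd := (abs_le.1 hb).2
    have he : (-lam * (h ω - μ)) ^ 2 ≤ lam ^ 2 * c ^ 2 := by
      rw [← mul_pow, ← sq_abs (-lam * (h ω - μ))]
      exact pow_le_pow_left₀ (abs_nonneg _) ha 2
    linarith
  have hsum : ∑ ω, Real.exp (-lam * (h ω - μ)) ≤ w * (1 + lam ^ 2 * c ^ 2) := by
    calc ∑ ω, Real.exp (-lam * (h ω - μ))
        ≤ ∑ ω, (1 + (-lam * (h ω - μ)) + lam ^ 2 * c ^ 2) := Finset.sum_le_sum fun ω _ => hone ω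
      _ = w * (1 + lam ^ 2 * c ^ 2) := by
          rw [Finset.sum_add_distrib, Finset.sum_add_distrib, hcard, hcard, ← Finset.mul_sum,
            Finset.sum_sub_distrib, hcard, ← hmw]
          ring
  have hfac : ∑ ω, Real.exp (-lam * h ω) =
      (∑ ω, Real.exp (-lam * (h ω - μ))) * Real.exp (-lam * μ) := by
    rw [Finset.sum_mul]
    refine Finset.sum_congr rfl fun ω _ => ?_
    rw [← Real.exp_add]
    congr 1; ring
  rw [hfac]
  refine mul_le_mul_of_nonneg_right (hsum.trans ?_) (Real.exp_pos _).le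
  refine mul_le_mul_of_nonneg_left ?_ hw.le
  have := Real.add_one_le_exp (lam ^ 2 * c ^ 2)
  linarith

/-- sums over tuples, the first coordinate split off -/
theorem sum_cons {Ω : Type} [Fintype Ω] (m : ℕ) (F : (Fin (m + 1) → Ω) → ℝ) :
    ∑ g, F g = ∑ g' : Fin m → Ω, ∑ ω : Ω, F (Fin.cons ω g') := by
  rw [← (Fin.consEquiv (fun _ : Fin (m + 1) => Ω)).sum_comp, Fintype.sum_prod_type, Finset.sum_comm]
  rfl

/-- the bounded difference inequality (moment generating function) -/
theorem mgf {Ω : Type} [Fintype Ω] [Nonempty Ω] (lam : ℝ) (h0 : 0 ≤ lam) :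
    ∀ (m : ℕ) (f : (Fin m → Ω) → ℝ) (c : Fin m → ℝ),
      (∀ i, lam * c i ≤ 1) → (∀ g i v, |f (Function.update g i v) - f g| ≤ c i) →
      ∑ g, Real.exp (-lam * f g) ≤ (Fintype.card Ω : ℝ) ^ m *
        Real.exp (lam ^ 2 * ∑ i, c i ^ 2) *
          Real.exp (-lam * ((∑ g, f g) / (Fintype.card Ω : ℝ) ^ m)) := by
  intro m
  induction m with
  | zero =>
    intro f c _ _
    rw [Fintype.sum_unique, Fintype.sum_unique (f := f), Finset.univ_eq_empty, Finset.sum_empty]
    simp
  | succ m ih =>
    intro f c hc hf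
    have hw : (0 : ℝ) < Fintype.card Ω := by exact_mod_cast Fintype.card_pos
    set w : ℝ := (Fintype.card Ω : ℝ) with hwd
    set f' : (Fin m → Ω) → ℝ := fun g' => (∑ ω : Ω, f (Fin.cons ω g')) / w with hf'
    have hcard : ∀ x : ℝ, ∑ _ω : Ω, x = w * x := fun x => by
      rw [Finset.sum_const, nsmul_eq_mul, Finset.card_univ]
    have h2 : ∀ g' : Fin m → Ω, ∑ ω, Real.exp (-lam * f (Fin.cons ω g')) ≤
        w * Real.exp (lam ^ 2 * c 0 ^ 2) * Real.exp (-lam * f' g') := by
      intro g'
      refine mgf_one (fun ω => f (Fin.cons ω g')) (c 0) lam (fun a b => ?_) h0 (hc 0)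
      have := hf (Fin.cons b g') 0 a
      rwa [Fin.update_cons_zero] at this
    have h3 := ih f' (fun i => c i.succ) (fun i => hc i.succ) (fun g i v => by
      have e1 : f' (Function.update g i v) - f' g =
          (∑ ω : Ω, (f (Fin.cons ω (Function.update g i v)) - f (Fin.cons ω g))) / w := by
        rw [hf', Finset.sum_sub_distrib, sub_div]
      rw [e1, abs_div, abs_of_pos hw, div_le_iff₀ hw]
      calc |∑ ω : Ω, (f (Fin.cons ω (Function.update g i v)) - f (Fin.cons ω g))|
          ≤ ∑ ω : Ω, |f (Fin.cons ω (Function.update g i v)) - f (Fin.cons ω g)| :=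
            Finset.abs_sum_le_sum_abs _ _
        _ ≤ ∑ _ω : Ω, c i.succ := Finset.sum_le_sum fun ω _ => by
            rw [Fin.cons_update]
            exact hf _ _ _
        _ = c i.succ * w := by rw [hcard]; ring)
    have h4 : ∑ g' : Fin m → Ω, f' g' = (∑ g, f g) / w := by
      rw [sum_cons, hf', Finset.sum_div]
    rw [sum_cons]
    calc ∑ g' : Fin m → Ω, ∑ ω, Real.exp (-lam * f (Fin.cons ω g'))
        ≤ ∑ g' : Fin m → Ω, w * Real.exp (lam ^ 2 * c 0 ^ 2) * Real.exp (-lam * f' g') :=
          Finset.sum_le_sum fun g' _ => h2 g'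
      _ = w * Real.exp (lam ^ 2 * c 0 ^ 2) * ∑ g' : Fin m → Ω, Real.exp (-lam * f' g') := by
          rw [Finset.mul_sum]
      _ ≤ w * Real.exp (lam ^ 2 * c 0 ^ 2) * (w ^ m * Real.exp (lam ^ 2 * ∑ i : Fin m, c i.succ ^ 2) *
          Real.exp (-lam * ((∑ g' : Fin m → Ω, f' g') / w ^ m))) :=
          mul_le_mul_of_nonneg_left h3 (by positivity)
      _ = w ^ (m + 1) * Real.exp (lam ^ 2 * ∑ i, c i ^ 2) *
          Real.exp (-lam * ((∑ g, f g) / w ^ (m + 1))) := by
          have e2 : (∑ g' : Fin m → Ω, f' g') / w ^ m = (∑ g, f g) / w ^ (m + 1) := by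
            rw [h4, div_div, pow_succ, mul_comm w (w ^ m)]
          have e3 : Real.exp (lam ^ 2 * ∑ i, c i ^ 2) = Real.exp (lam ^ 2 * c 0 ^ 2) *
              Real.exp (lam ^ 2 * ∑ i : Fin m, c i.succ ^ 2) := by
            rw [← Real.exp_add, Fin.sum_univ_succ]
            congr 1; ring
          rw [e2, e3, pow_succ]
          ring

/-- few labellings are far below the mean -/
theorem chernoff {Ω : Type} [Fintype Ω] [Nonempty Ω] (lam : ℝ) (h0 : 0 ≤ lam) (m : ℕ)
    (f : (Fin m → Ω) → ℝ) (c : Fin m → ℝ) (hc : ∀ i, lam * c i ≤ 1)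
    (hf : ∀ g i v, |f (Function.update g i v) - f g| ≤ c i) (t μ C : ℝ)
    (hμ : μ * (Fintype.card Ω : ℝ) ^ m ≤ ∑ g, f g) (hC : ∑ i, c i ^ 2 ≤ C)
    [DecidablePred fun g => f g < t] :
    ((Finset.univ.filter fun g => f g < t).card : ℝ) ≤ (Fintype.card Ω : ℝ) ^ m *
      Real.exp (lam * t + lam ^ 2 * C - lam * μ) := by
  have hw : (0 : ℝ) < Fintype.card Ω := by exact_mod_cast Fintype.card_pos
  set w : ℝ := (Fintype.card Ω : ℝ) with hwd
  have h1 : ((Finset.univ.filter fun g => f g < t).card : ℝ) ≤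
      Real.exp (lam * t) * ∑ g, Real.exp (-lam * f g) := by
    rw [Finset.mul_sum, Finset.card_eq_sum_ones, Nat.cast_sum]
    calc ∑ g ∈ Finset.univ.filter (fun g => f g < t), ((1 : ℕ) : ℝ)
        ≤ ∑ g ∈ Finset.univ.filter (fun g => f g < t), Real.exp (lam * t) * Real.exp (-lam * f g) := by
          refine Finset.sum_le_sum fun g hg => ?_
          rw [Finset.mem_filter] at hg
          rw [← Real.exp_add, Nat.cast_one]
          refine Real.one_le_exp ?_
          nlinarith [hg.2]
      _ ≤ ∑ g, Real.exp (lam * t) * Real.exp (-lam * f g) :=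
          Finset.sum_le_sum_of_subset_of_nonneg (Finset.subset_univ _) fun _ _ _ => by positivity
  have h2 := mgf lam h0 m f c hc hf
  have hwm : 0 < w ^ m := by positivity
  have h3 : μ ≤ (∑ g, f g) / w ^ m := by rw [le_div_iff₀ hwm]; exact hμ
  calc ((Finset.univ.filter fun g => f g < t).card : ℝ)
      ≤ Real.exp (lam * t) * ∑ g, Real.exp (-lam * f g) := h1
    _ ≤ Real.exp (lam * t) * (w ^ m * Real.exp (lam ^ 2 * ∑ i, c i ^ 2) *
          Real.exp (-lam * ((∑ g, f g) / w ^ m))) := mul_le_mul_of_nonneg_left h2 (by positivity)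
    _ = w ^ m * Real.exp (lam * t + lam ^ 2 * (∑ i, c i ^ 2) + -lam * ((∑ g, f g) / w ^ m)) := by
        rw [Real.exp_add, Real.exp_add]; ring
    _ ≤ w ^ m * Real.exp (lam * t + lam ^ 2 * C - lam * μ) := by
        refine mul_le_mul_of_nonneg_left (Real.exp_le_exp.2 ?_) hwm.le
        nlinarith [mul_le_mul_of_nonneg_left hC (sq_nonneg lam), mul_le_mul_of_nonneg_left h3 h0]

/-- few tuples of labellings have many bad members -/
theorem many_bad {β : Type} [Fintype β] [DecidableEq β] (bad : β → Prop) [DecidablePred bad]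
    (N : ℕ) (θ p a : ℝ) (h0 : 0 ≤ θ)
    (hp : ((Finset.univ.filter bad).card : ℝ) ≤ Fintype.card β * p) (hp1 : Real.exp θ * p ≤ 1)
    [DecidablePred fun G : Fin N → β => a < ((Finset.univ.filter fun i => bad (G i)).card : ℝ)] :
    ((Finset.univ.filter fun G : Fin N → β =>
      a < ((Finset.univ.filter fun i => bad (G i)).card : ℝ)).card : ℝ) ≤
      (Fintype.card β : ℝ) ^ N * Real.exp (N - θ * a) := by
  set b : ℝ := (Fintype.card β : ℝ) with hb
  have hb0 : 0 ≤ b := by positivity
  have h1 : ((Finset.univ.filter fun G : Fin N → β =>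
      a < ((Finset.univ.filter fun i => bad (G i)).card : ℝ)).card : ℝ) ≤
      Real.exp (-(θ * a)) * ∑ G : Fin N → β, ∏ i, Real.exp (if bad (G i) then θ else 0) := by
    rw [Finset.mul_sum, Finset.card_eq_sum_ones, Nat.cast_sum]
    calc ∑ G ∈ Finset.univ.filter (fun G : Fin N → β =>
          a < ((Finset.univ.filter fun i => bad (G i)).card : ℝ)), ((1 : ℕ) : ℝ)
        ≤ ∑ G ∈ Finset.univ.filter (fun G : Fin N → β =>
          a < ((Finset.univ.filter fun i => bad (G i)).card : ℝ)),
          Real.exp (-(θ * a)) * ∏ i, Real.exp (if bad (G i) then θ else 0) := by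
          refine Finset.sum_le_sum fun G hG => ?_
          rw [Finset.mem_filter] at hG
          rw [← Real.exp_sum, ← Real.exp_add, Nat.cast_one]
          refine Real.one_le_exp ?_
          rw [← Finset.sum_filter, Finset.sum_const, nsmul_eq_mul]
          nlinarith [hG.2]
      _ ≤ ∑ G : Fin N → β, Real.exp (-(θ * a)) * ∏ i, Real.exp (if bad (G i) then θ else 0) :=
          Finset.sum_le_sum_of_subset_of_nonneg (Finset.subset_univ _) fun _ _ _ => by positivity
  have h2 : ∑ G : Fin N → β, ∏ i, Real.exp (if bad (G i) then θ else 0) =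
      (∑ g : β, Real.exp (if bad g then θ else 0)) ^ N := by
    rw [Fintype.sum_pow]
  have h3 : ∑ g : β, Real.exp (if bad g then θ else 0) ≤ b * Real.exp 1 := by
    calc ∑ g : β, Real.exp (if bad g then θ else 0)
        ≤ ∑ g : β, (1 + (if bad g then Real.exp θ else 0)) := by
          refine Finset.sum_le_sum fun g _ => ?_
          by_cases hg : bad g
          · simp [hg]
          · simp [hg]
      _ = b + ((Finset.univ.filter bad).card : ℝ) * Real.exp θ := by
          rw [Finset.sum_add_distrib, ← Finset.sum_filter, Finset.sum_const, Finset.sum_const,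
            nsmul_eq_mul, nsmul_eq_mul, Finset.card_univ, mul_one]
      _ ≤ b + b * p * Real.exp θ := by
          have := mul_le_mul_of_nonneg_right hp (Real.exp_pos θ).le
          linarith
      _ ≤ b + b * 1 := by
          have : b * p * Real.exp θ = b * (Real.exp θ * p) := by ring
          rw [this]
          have := mul_le_mul_of_nonneg_left hp1 hb0
          linarith
      _ ≤ b * Real.exp 1 := by
          have := Real.add_one_le_exp (1 : ℝ)
          nlinarith
  calc ((Finset.univ.filter fun G : Fin N → β =>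
      a < ((Finset.univ.filter fun i => bad (G i)).card : ℝ)).card : ℝ)
      ≤ Real.exp (-(θ * a)) * (∑ g : β, Real.exp (if bad g then θ else 0)) ^ N := by
        rw [← h2]; exact h1
    _ ≤ Real.exp (-(θ * a)) * (b * Real.exp 1) ^ N := by
        refine mul_le_mul_of_nonneg_left ?_ (Real.exp_pos _).le
        exact pow_le_pow_left₀ (Finset.sum_nonneg fun _ _ => (Real.exp_pos _).le) h3 N
    _ = b ^ N * Real.exp (N - θ * a) := by
        rw [mul_pow, ← Real.exp_nat_mul, mul_one, sub_eq_add_neg, Real.exp_add]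
        ring

end Pool.Agent.U325.FO
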